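import Pool.Agent.Helper14.PP.DatG
import Pool.Agent.Helper98.GP.TyN
import Pool.Agent.Helper81.PF.C9

/-!
Project PF with blocks (MP_b8862a_ag): the type of a self-dual block from one Hodge-Tate decomposition, if a large prime
divides its rank.
-/

set_option linter.unusedSectionVars false

open Matrix Module GH

namespace MH

variable {n : Type*} [Fintype n] [DecidableEq n]
variable {w : ℤ} {Q : Matrix n n ℚ} {S S' : Finset ℤ} {P R : ℤ → Matrix n n ℂ} {Γ : Subgroup (GL n ℂ)}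

/-- twice a Hodge-Tate element, shifted by the weight, is skew -/
theorem IsHTw.skewW (G : IsHTw w Q S' Γ R) :
    ((2 : ℂ) • hR S' R - (w : ℂ) • (1 : Matrix n n ℂ))ᵀ * toC Q +
      toC Q * ((2 : ℂ) • hR S' R - (w : ℂ) • (1 : Matrix n n ℂ)) = 0 := by
  obtain ⟨Y, hY⟩ : ∃ Y, Y = (2 : ℂ) • hR S' R - (w : ℂ) • (1 : Matrix n n ℂ) := ⟨_, rfl⟩
  obtain ⟨Z, hZ⟩ : ∃ Z, Z = Yᵀ * toC Q + toC Q * Y := ⟨_, rfl⟩
  rw [← hY, ← hZ]
  have h2 : ∀ q, Y * R q = ((2 * q - w : ℤ) : ℂ) • R q := by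
    intro q
    rw [hY, sub_mul, smul_mul_assoc, smul_mul_assoc, one_mul, hR, Finset.sum_mul]
    by_cases hq : q ∈ S'
    · rw [Finset.sum_eq_single_of_mem q hq]
      · rw [smul_mul_assoc, G.mul, if_pos rfl, smul_smul, ← sub_smul]
        congr 1
        push_cast
        ring
      · intro p _ hpq
        rw [smul_mul_assoc, G.mul, if_neg hpq, smul_zero]
    · rw [G.supp q hq, smul_zero, smul_zero, sub_zero]
      rw [Finset.sum_eq_zero fun p _ => mul_zero _, smul_zero]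
  have h3 : ∀ p q, (R p)ᵀ * Z * R q = 0 := by
    intro p q
    have h4 : (R p)ᵀ * Z * R q = ((2 * p - w : ℤ) : ℂ) • ((R p)ᵀ * toC Q * R q) +
        ((2 * q - w : ℤ) : ℂ) • ((R p)ᵀ * toC Q * R q) := by
      rw [hZ, mul_add, add_mul]
      congr 1
      · rw [← mul_assoc, ← transpose_mul, h2, transpose_smul, smul_mul_assoc, smul_mul_assoc]
      · rw [mul_assoc, mul_assoc, h2, mul_smul_comm, mul_smul_comm, mul_assoc]
    rw [h4, ← add_smul]
    by_cases hpq : p + q = w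
    · have h5 : (((2 * p - w : ℤ) : ℂ) + ((2 * q - w : ℤ) : ℂ)) = 0 := by
        rw [← Int.cast_add, show 2 * p - w + (2 * q - w) = 0 by omega, Int.cast_zero]
      rw [h5, zero_smul]
    · rw [G.orth p q hpq, smul_zero]
  calc Z = (∑ p ∈ S', R p)ᵀ * Z * ∑ q ∈ S', R q := by
        rw [G.sum, transpose_one, one_mul, mul_one]
    _ = ∑ q ∈ S', ∑ p ∈ S', (R p)ᵀ * Z * R q := by
        rw [transpose_sum, Matrix.mul_sum]
        refine Finset.sum_congr rfl fun q _ => ?_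
        rw [Matrix.sum_mul, Matrix.sum_mul]
    _ = 0 := Finset.sum_eq_zero fun q _ => Finset.sum_eq_zero fun p _ => h3 p q

/-- The block carries an invariant form. -/
def SelfB (Q : Matrix n n ℚ) (P : ℤ → Matrix n n ℂ) (e : Matrix n n ℂ) : Prop :=
  ∃ x ∈ EC P, eᵀ * (toC Q * x) * e ≠ 0

section cmp

variable {r : ℕ} {W : Matrix n (Fin r) ℂ} {V : Matrix (Fin r) n ℂ} {e : Matrix n n ℂ}

/-- spectral decomposition of twice the compressed Hodge-Tate element, shifted by the weight -/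
theorem CR.exists_sdW {A : ℤ → Matrix (Fin r) (Fin r) ℂ} (C : CR e W V S' R A) (c : ℤ) :
    ∃ (F : ℝ → Matrix (Fin r) (Fin r) ℂ) (Λ : Finset ℝ),
      SD ((2 : ℂ) • (V * hR S' R * W) - (c : ℂ) • (1 : Matrix (Fin r) (Fin r) ℂ)) F Λ ∧
      (∀ p : ℤ, F ((2 * p - c : ℤ) : ℝ) = A p) ∧ Λ = S'.image (fun p : ℤ => ((2 * p - c : ℤ) : ℝ)) ∧
      (∀ μ : ℝ, F μ ≠ 0 → ∃ p : ℤ, μ = ((2 * p - c : ℤ) : ℝ)) := by
  classical
  have hinj : ∀ p ∈ S', ∀ q ∈ S', ((2 * p - c : ℤ) : ℝ) = ((2 * q - c : ℤ) : ℝ) → p = q := by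
    intro p _ q _ h
    have : 2 * p - c = 2 * q - c := by exact_mod_cast h
    omega
  obtain ⟨F, hF, hF1, hF0⟩ := sd_of (S := S') (F := A) (c := fun p : ℤ => ((2 * p - c : ℤ) : ℝ)) hinj C.mul C.sum
  refine ⟨F, _, ?_, ?_, rfl, ?_⟩
  · have e1 : (2 : ℂ) • (V * hR S' R * W) - (c : ℂ) • (1 : Matrix (Fin r) (Fin r) ℂ) =
        ∑ p ∈ S', ((((2 * p - c : ℤ) : ℝ) : ℝ) : ℂ) • A p := by
      rw [C.h, ← C.sum, Finset.smul_sum, Finset.smul_sum, ← Finset.sum_sub_distrib]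
      refine Finset.sum_congr rfl fun p _ => ?_
      rw [smul_smul, ← sub_smul]
      congr 1
      push_cast
      ring
    rw [e1]
    exact hF
  · intro p
    by_cases hp : p ∈ S'
    · exact hF1 p hp
    · rw [C.supp p hp]
      refine hF0 _ fun h0 => hp ?_
      obtain ⟨q, hq, hqp⟩ := Finset.mem_image.1 h0
      have h2 : 2 * q - c = 2 * p - c := by exact_mod_cast hqp
      rwa [show p = q by omega]
  · intro μ hμ
    by_contra hcon
    push Not at hcon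
    exact hμ (hF0 _ fun h0 => by
      obtain ⟨q, _, hqp⟩ := Finset.mem_image.1 h0
      exact hcon q hqp.symm)

/-- the invariant form in coordinates -/
theorem IsGalU.exists_formS (H : IsHW w Q S P) (G : IsGalU w Q S P Γ) (he : IsBlk P e) (hVW : V * W = 1)
    (hWV : W * V = e) (hT0 : HasHT w Q Γ e) (hr : 0 < r) (hO : SelfB Q P e) :
    ∃ F Fi : Matrix (Fin r) (Fin r) ℂ, F * Fi = 1 ∧ Fi * F = 1 ∧ (Fᵀ = F ∨ Fᵀ = -F) ∧
      (∀ x ∈ cpS W V (LG Γ), ∃ c : ℂ, xᵀ * F + F * x = c • F) ∧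
      ∀ (S1 : Finset ℤ) (R1 : ℤ → Matrix n n ℂ), IsHTw w Q S1 Γ R1 →
        ((2 : ℂ) • (V * hR S1 R1 * W) - (w : ℂ) • (1 : Matrix (Fin r) (Fin r) ℂ))ᵀ * F +
          F * ((2 : ℂ) • (V * hR S1 R1 * W) - (w : ℂ) • (1 : Matrix (Fin r) (Fin r) ℂ)) = 0 := by
  classical
  obtain ⟨x, hx, hx0⟩ := hO
  have heW : e * W = W := by
    rw [← hWV, Matrix.mul_assoc, hVW, Matrix.mul_one]
  have hVe : V * e = V := by
    rw [← hWV, ← Matrix.mul_assoc, hVW, Matrix.one_mul]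
  obtain ⟨F, hF⟩ : ∃ F, F = Wᵀ * (toC Q * x) * W := ⟨_, rfl⟩
  have key : ∀ (X : Matrix n n ℂ) (c : ℂ), X * e = e * X → X * x = x * X → Xᵀ * toC Q + toC Q * X = c • toC Q →
      (V * X * W)ᵀ * F + F * (V * X * W) = c • F := by
    intro X c h1 h2 h3
    have a1 : W * (V * X * W) = X * W := by
      calc W * (V * X * W) = (W * V) * X * W := by simp only [Matrix.mul_assoc]
        _ = X * (e * W) := by rw [hWV, ← h1, Matrix.mul_assoc]
        _ = X * W := by rw [heW]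
    calc (V * X * W)ᵀ * F + F * (V * X * W)
        = (W * (V * X * W))ᵀ * (toC Q * x) * W + Wᵀ * (toC Q * x) * (W * (V * X * W)) := by
          rw [hF, Matrix.transpose_mul W]
          simp only [Matrix.mul_assoc]
      _ = Wᵀ * ((Xᵀ * toC Q + toC Q * X) * x) * W := by
          rw [a1, Matrix.transpose_mul, Matrix.add_mul, Matrix.mul_add, Matrix.add_mul, Matrix.mul_assoc (toC Q) X x,
            h2]
          simp only [Matrix.mul_assoc]
      _ = c • F := by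
          rw [h3, hF, smul_mul_assoc, Matrix.mul_smul, Matrix.smul_mul]
  have hL : ∀ y ∈ cpL W V (LG Γ), ∃ c : ℂ, yᵀ * F + F * y = c • F := by
    rintro _ ⟨X, hX, rfl⟩
    obtain ⟨c, hc⟩ := G.LG_sim H hX
    exact ⟨c, key X c (G.LG_com hX he.mem) (G.LG_com hX hx) hc⟩
  have hF0 : F ≠ 0 := by
    intro h0
    apply hx0
    calc eᵀ * (toC Q * x) * e = Vᵀ * (Wᵀ * (toC Q * x) * W) * V := by
          rw [← hWV, Matrix.transpose_mul]
          simp only [Matrix.mul_assoc]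
      _ = 0 := by rw [← hF, h0, Matrix.mul_zero, Matrix.zero_mul]
  have hker : LinearMap.ker (Matrix.toLin' F) = ⊥ := by
    rcases G.irr' he hVW hWV hT0 (LinearMap.ker (Matrix.toLin' F)) (by
      intro y hy u hu
      obtain ⟨c, hc⟩ := hL y hy
      rw [LinearMap.mem_ker, Matrix.toLin'_apply] at hu ⊢
      have h1 : F * y = c • F - yᵀ * F := by rw [← hc]; abel
      rw [Matrix.mulVec_mulVec, h1, Matrix.sub_mulVec, Matrix.smul_mulVec, ← Matrix.mulVec_mulVec, hu,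
        Matrix.mulVec_zero, smul_zero, sub_zero]) with h1 | h1
    · exact h1
    · exfalso
      apply hF0
      rw [LinearMap.ker_eq_top] at h1
      exact (LinearEquiv.map_eq_zero_iff _).1 h1
  have hu : IsUnit F := by
    rw [← Matrix.isUnit_toLin'_iff]
    exact (LinearMap.isUnit_iff_ker_eq_bot _).2 hker
  obtain ⟨⟨F0, Fi, h1, h2⟩, rfl⟩ := hu
  change ∀ y ∈ cpL W V (LG Γ), ∃ c : ℂ, yᵀ * F0 + F0 * y = c • F0 at hL
  change F0 = Wᵀ * (toC Q * x) * W at hF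
  change F0 ≠ 0 at hF0
  have hcS : ∀ y ∈ cpS W V (LG Γ), ∃ c : ℂ, yᵀ * F0 + F0 * y = c • F0 := by
    intro y hy
    obtain ⟨y', hy', d, rfl⟩ := mem_cpS.1 hy
    obtain ⟨c, hc⟩ := hL y' hy'
    refine ⟨c + 2 * d, ?_⟩
    rw [Matrix.transpose_add, Matrix.transpose_smul, Matrix.transpose_one, Matrix.add_mul, Matrix.mul_add,
      Matrix.smul_mul, Matrix.mul_smul, Matrix.one_mul, Matrix.mul_one, add_smul, ← hc, mul_smul, two_smul]
    abel
  -- the sign of the form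
  have hsym : F0ᵀ = F0 ∨ F0ᵀ = -F0 := by
    obtain ⟨d, hd⟩ := G.cpS_schur he hVW hWV hT0 hr (Fi * F0ᵀ) (by
      intro y hy
      obtain ⟨c, hc⟩ := hcS y hy
      have e1 : yᵀ * F0ᵀ + F0ᵀ * y = c • F0ᵀ := by
        have e2 := congrArg Matrix.transpose hc
        rw [Matrix.transpose_add, Matrix.transpose_mul, Matrix.transpose_mul, Matrix.transpose_transpose,
          Matrix.transpose_smul] at e2
        rw [add_comm, e2]
      have e3 : F0 * y = c • F0 - yᵀ * F0 := by rw [← hc]; abel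
      have e4 : F0ᵀ * y = c • F0ᵀ - yᵀ * F0ᵀ := by rw [← e1]; abel
      have e5 : F0 * (y * (Fi * F0ᵀ)) = F0ᵀ * y := by
        calc F0 * (y * (Fi * F0ᵀ)) = (F0 * y) * (Fi * F0ᵀ) := by rw [Matrix.mul_assoc]
          _ = c • ((F0 * Fi) * F0ᵀ) - yᵀ * ((F0 * Fi) * F0ᵀ) := by
              rw [e3, sub_mul, smul_mul_assoc]
              simp only [Matrix.mul_assoc]
          _ = F0ᵀ * y := by rw [h1, one_mul, e4]
      calc Fi * F0ᵀ * y = Fi * (F0 * (y * (Fi * F0ᵀ))) := by rw [e5, Matrix.mul_assoc]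
        _ = (Fi * F0) * (y * (Fi * F0ᵀ)) := by rw [Matrix.mul_assoc]
        _ = y * (Fi * F0ᵀ) := by rw [h2, one_mul])
    have e1 : F0ᵀ = d • F0 := by
      calc F0ᵀ = F0 * (Fi * F0ᵀ) := by rw [← Matrix.mul_assoc, h1, one_mul]
        _ = d • F0 := by rw [hd, Matrix.mul_smul, Matrix.mul_one]
    have e2 : F0 = (d * d) • F0 := by
      calc F0 = (F0ᵀ)ᵀ := (Matrix.transpose_transpose _).symm
        _ = (d * d) • F0 := by
            rw [e1, Matrix.transpose_smul]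
            rw [e1, smul_smul]
    have e3 : (1 - d * d) • F0 = 0 := by rw [sub_smul, one_smul, ← e2, sub_self]
    have e4 : d * d = 1 := by
      have e5 := (smul_eq_zero.1 e3).resolve_right hF0
      linear_combination -e5
    rcases mul_self_eq_one_iff.1 e4 with h | h
    · left
      rw [e1, h, one_smul]
    · right
      rw [e1, h, neg_one_smul]
  refine ⟨F0, Fi, h1, h2, hsym, hcS, ?_⟩
  intro S1 R1 hR1
  have h4 := key ((2 : ℂ) • hR S1 R1 - (w : ℂ) • (1 : Matrix n n ℂ)) 0 (by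
    rw [sub_mul, mul_sub, smul_mul_assoc, mul_smul_comm, G.LG_com hR1.hR_mem he.mem, smul_mul_assoc, mul_smul_comm,
      one_mul, mul_one]) (by
    rw [sub_mul, mul_sub, smul_mul_assoc, mul_smul_comm, G.LG_com hR1.hR_mem hx, smul_mul_assoc, mul_smul_comm,
      one_mul, mul_one]) (by
    rw [hR1.skewW, zero_smul])
  rw [zero_smul] at h4
  have h5 : V * ((2 : ℂ) • hR S1 R1 - (w : ℂ) • (1 : Matrix n n ℂ)) * W =
      (2 : ℂ) • (V * hR S1 R1 * W) - (w : ℂ) • (1 : Matrix (Fin r) (Fin r) ℂ) := by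
    rw [Matrix.mul_sub, Matrix.sub_mul, Matrix.mul_smul, Matrix.smul_mul, Matrix.mul_smul, Matrix.smul_mul,
      Matrix.mul_one, hVW]
  rwa [h5] at h4

/-- the condition on a block: the numbers `h p` are not those of a tensor product, one of them is at least two, and a prime
number `q` with `25 r ≤ q ^ 2` divides the rank `r` -/
def PrN (w : ℤ) (r : ℕ) (h : ℤ → ℕ) : Prop :=
  NI.Indec w h ∧ (∃ p, 2 ≤ h p) ∧ ∃ q : ℕ, q.Prime ∧ q ∣ r ∧ 25 * r ≤ q ^ 2

/-- the abstract condition on a block: the numbers `h p` are not those of a tensor product, and the core statement holds -/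
def CrW (w : ℤ) (r : ℕ) (h : ℤ → ℕ) : Prop :=
  NI.Indec w h ∧ 9 ≤ r ∧ ((∀ p, h p ≠ r) → CoreW (Fin r) w h)

theorem PrN.crW {r : ℕ} {h : ℤ → ℕ} (hr : 2 ≤ r) (H : PrN w r h) : CrW w r h := by
  obtain ⟨hI, h2r, q, hq, hd, h25⟩ := H
  have hqr : q ≤ r := Nat.le_of_dvd (by omega) hd
  have h25' : 25 ≤ q := by
    have h3 : 25 * q ≤ q * q := by
      calc 25 * q ≤ 25 * r := Nat.mul_le_mul_left _ hqr
        _ ≤ q ^ 2 := h25
        _ = q * q := sq q
    exact Nat.le_of_mul_le_mul_right h3 hq.pos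
  refine ⟨hI, by omega, fun h0 => ?_⟩
  refine coreW_of (by rw [Fintype.card_fin]; exact hr) h2r ?_ hq (by rw [Fintype.card_fin]; exact hd)
    (by rw [Fintype.card_fin]; exact h25) (fun p _ => by rw [Fintype.card_fin]; exact h0 p)
  intro ω hsymm hnd L hL hirr hsk
  exact PF.C.core ω hsymm hnd L hirr hsk hq (by rw [Module.finrank_fintype_fun_eq_card, Fintype.card_fin]; exact hd)
    (by rw [Module.finrank_fintype_fun_eq_card, Fintype.card_fin]; exact h25)

/-- all skew matrices -/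
theorem IsGalU.full_crW (H : IsHW w Q S P) (G : IsGalU w Q S P Γ) (he : IsBlk P e) (hVW : V * W = 1)
    (hWV : W * V = e) (hr : 2 ≤ r) {S1 : Finset ℤ} {R1 : ℤ → Matrix n n ℂ}
    (hR1 : IsHTw w Q S1 Γ R1) (hg : ∀ d : ℕ, (∀ p, d ∣ (e * R1 p).rank) → d = 1) (hO : SelfB Q P e)
    (hN : CrW w r (fun p => (e * R1 p).rank)) : TyN (cpS W V (LG Γ)) := by
  classical
  have hne : Nonempty (Fin r) := ⟨⟨0, by omega⟩⟩
  have hre := blk_rank he hVW hWV
  have hT0 : HasHT w Q Γ e := ⟨S1, R1, hR1, hg⟩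
  obtain ⟨hI, h9, hcore⟩ := hN
  obtain ⟨F, Fi, hF1, hF2, hFs, hFL, hFh⟩ := G.exists_formS H he hVW hWV hT0 (by omega) hO
  obtain ⟨A, C⟩ := G.exists_CR hR1 he hVW hWV
  obtain ⟨E, Λ, hSD, hE, hΛ, hint⟩ := C.exists_sdW w
  obtain ⟨L0, hL0⟩ : ∃ L0 : Submodule ℂ (Matrix (Fin r) (Fin r) ℂ), ∀ y, y ∈ L0 ↔
      (y ∈ cpS W V (LG Γ) ∧ yᵀ * F + F * y = 0) := by
    refine ⟨{ carrier := {y | y ∈ cpS W V (LG Γ) ∧ yᵀ * F + F * y = 0}, add_mem' := ?_, zero_mem' := ?_,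
              smul_mem' := ?_ }, fun y => Iff.rfl⟩
    · rintro a b ⟨ha', ha⟩ ⟨hb', hb⟩
      refine ⟨Submodule.add_mem _ ha' hb', ?_⟩
      rw [Matrix.transpose_add, Matrix.add_mul, Matrix.mul_add]
      calc aᵀ * F + bᵀ * F + (F * a + F * b) = (aᵀ * F + F * a) + (bᵀ * F + F * b) := by abel
        _ = 0 := by rw [ha, hb, add_zero]
    · exact ⟨Submodule.zero_mem _, by simp⟩
    · rintro c a ⟨ha', ha⟩
      refine ⟨Submodule.smul_mem _ c ha', ?_⟩
      rw [Matrix.transpose_smul, Matrix.smul_mul, Matrix.mul_smul, ← smul_add, ha, smul_zero]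
  have hdec : ∀ y ∈ cpS W V (LG Γ), ∃ c : ℂ, y - c • (1 : Matrix (Fin r) (Fin r) ℂ) ∈ L0 := by
    intro y hy
    obtain ⟨c, hc⟩ := hFL y hy
    refine ⟨c / 2, ?_⟩
    rw [hL0]
    refine ⟨Submodule.sub_mem _ hy (Submodule.smul_mem _ _ one_cpS), ?_⟩
    rw [Matrix.transpose_sub, Matrix.transpose_smul, Matrix.transpose_one, Matrix.sub_mul, Matrix.mul_sub,
      Matrix.smul_mul, Matrix.mul_smul, Matrix.one_mul, Matrix.mul_one]
    calc yᵀ * F - (c / 2) • F + (F * y - (c / 2) • F) = (yᵀ * F + F * y) - c • F := by module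
      _ = 0 := by rw [hc, sub_self]
  have hbr : ∀ X ∈ L0, ∀ Y ∈ L0, X * Y - Y * X ∈ L0 := by
    intro x hx y hy
    rw [hL0] at hx hy ⊢
    refine ⟨G.cpS_br he hVW hWV x hx.1 y hy.1, ?_⟩
    have a1 : xᵀ * F = -(F * x) := eq_neg_of_add_eq_zero_left hx.2
    have a2 : yᵀ * F = -(F * y) := eq_neg_of_add_eq_zero_left hy.2
    rw [Matrix.transpose_sub, Matrix.transpose_mul, Matrix.transpose_mul, sub_mul, mul_assoc, mul_assoc, a1, a2,
      mul_neg, mul_neg, ← mul_assoc, ← mul_assoc, a1, a2]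
    simp only [neg_mul, neg_neg, mul_sub, mul_assoc]
    abel
  have hirr : ∀ U : Submodule ℂ (Fin r → ℂ), (∀ X ∈ L0, ∀ u ∈ U, X *ᵥ u ∈ U) → U = ⊥ ∨ U = ⊤ := by
    intro U hU
    refine G.cpS_irr he hVW hWV hT0 U fun y hy u hu => ?_
    obtain ⟨c, hc⟩ := hdec y hy
    have e1 := hU _ hc u hu
    have e2 : y *ᵥ u = (y - c • (1 : Matrix (Fin r) (Fin r) ℂ)) *ᵥ u + c • u := by
      rw [Matrix.sub_mulVec, Matrix.smul_mulVec, Matrix.one_mulVec, sub_add_cancel]
    rw [e2]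
    exact U.add_mem e1 (U.smul_mem _ hu)
  have hsk : ∀ X ∈ L0, Xᵀ * F + F * X = 0 := fun X hX => ((hL0 X).1 hX).2
  have hh : (2 : ℂ) • (V * hR S1 R1 * W) - (w : ℂ) • (1 : Matrix (Fin r) (Fin r) ℂ) ∈ L0 := by
    rw [hL0]
    exact ⟨Submodule.sub_mem _ (Submodule.smul_mem _ _ (le_cpS ⟨_, hR1.hR_mem, rfl⟩)) (Submodule.smul_mem _ _ one_cpS),
      hFh S1 R1 hR1⟩
  have htr : ∀ X ∈ L0, X.trace = 0 := by
    intro X hX
    have e1 : Xᵀ * F = -(F * X) := eq_neg_of_add_eq_zero_left (hsk X hX)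
    have e2 : X.trace = -X.trace := by
      calc X.trace = Xᵀ.trace := (Matrix.trace_transpose X).symm
        _ = (Xᵀ * F * Fi).trace := by rw [Matrix.mul_assoc, hF1, Matrix.mul_one]
        _ = -(F * X * Fi).trace := by rw [e1, Matrix.neg_mul, Matrix.trace_neg]
        _ = -X.trace := by rw [Matrix.mul_assoc, Matrix.trace_mul_comm, Matrix.mul_assoc, hF2, Matrix.mul_one]
    have e3 : (2 : ℂ) * X.trace = 0 := by linear_combination e2
    exact (mul_eq_zero.1 e3).resolve_left two_ne_zero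
  have hEr : (fun p : ℤ => (E ((2 * p - w : ℤ) : ℝ)).rank) = fun p => (e * R1 p).rank := by
    funext p
    rw [hE p, C.rank]
  have hcoreP : CoreW (Fin r) w (fun p : ℤ => (E ((2 * p - w : ℤ) : ℝ)).rank) := by
    rw [hEr]
    refine hcore ?_
    intro p hp
    refine C.not_one hr hg p ?_
    have h3 : (A p).rank = r := by
      rw [C.rank]
      exact hp
    have hAA : A p * A p = A p := by rw [C.mul, if_pos rfl]
    have h4 := rank_compl hAA
    rw [h3, Fintype.card_fin] at h4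
    have h5 : (1 - A p).rank = 0 := by omega
    rw [Matrix.rank, Submodule.finrank_eq_zero, LinearMap.range_eq_bot] at h5
    have h6 : 1 - A p = 0 := (LinearEquiv.map_eq_zero_iff Matrix.toLin').1 h5
    exact (sub_eq_zero.1 h6).symm
  have hfull : ∀ x : Matrix (Fin r) (Fin r) ℂ, xᵀ * F + F * x = 0 → x ∈ cpS W V (LG Γ) := by
    intro x hx
    have hmem := full_coreG14 (w := w) hFs hF1 hF2 hbr (fun T hT => schur98 L0 hirr hT) hsk hh hSD hint
      (by rw [hEr]; exact hI) (fun d hdd => hg d fun p => by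
        by_cases hp : p ∈ S1
        · have h3 := hdd _ (by rw [hΛ]; exact Finset.mem_image_of_mem _ hp)
          rwa [hE, C.rank] at h3
        · rw [hR1.supp p hp, Matrix.mul_zero, Matrix.rank_zero]
          exact dvd_zero d) hcoreP (exists_herm L0 hbr hirr htr hh hSD) hx
    exact ((hL0 x).1 hmem).1
  refine ⟨Or.inr ⟨F, hFs, ⟨⟨F, Fi, hF1, hF2⟩, rfl⟩, hfull, hFL⟩, Or.inr ?_⟩
  rw [Fintype.card_fin]
  exact h9

end cmp

end MH
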