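import Pool.Agent.Helper71.OW.Semi
import Mathlib.RingTheory.SimpleModule.Basic

/-!
Project PF with blocks (MP_b8862a_ag): Clifford's theorem, the double commutant, and extension of scalars.
-/

set_option linter.unusedSectionVars false

open Matrix

namespace MH

variable {n : Type*} [Fintype n] [DecidableEq n] {F : Type*} [Field F]

/-- the subspace is stable under the group -/
private def Stb (Γ : Subgroup (GL n F)) (W : Submodule F (n → F)) : Prop :=
  ∀ g ∈ Γ, ∀ w ∈ W, (g : Matrix n n F) *ᵥ w ∈ W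

/-- a minimal stable subspace -/
private def Mnl (Γ : Subgroup (GL n F)) (W : Submodule F (n → F)) : Prop :=
  Stb Γ W ∧ W ≠ ⊥ ∧ ∀ W', Stb Γ W' → W' ≤ W → W' = ⊥ ∨ W' = W

/-- the image of a subspace under an element of the group -/
private def gW (g : GL n F) (W : Submodule F (n → F)) : Submodule F (n → F) :=
  W.map (Matrix.toLin' (g : Matrix n n F))

private theorem mem_gW {g : GL n F} {W : Submodule F (n → F)} {v : n → F} :
    v ∈ gW g W ↔ ((g⁻¹ : GL n F) : Matrix n n F) *ᵥ v ∈ W := by
  have h1 : ((g⁻¹ : GL n F) : Matrix n n F) * (g : Matrix n n F) = 1 := by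
    rw [← Units.val_mul, inv_mul_cancel, Units.val_one]
  have h2 : (g : Matrix n n F) * ((g⁻¹ : GL n F) : Matrix n n F) = 1 := by
    rw [← Units.val_mul, mul_inv_cancel, Units.val_one]
  unfold gW
  rw [Submodule.mem_map]
  constructor
  · rintro ⟨w, hw, rfl⟩
    rw [Matrix.toLin'_apply, Matrix.mulVec_mulVec, h1, Matrix.one_mulVec]
    exact hw
  · intro h
    refine ⟨_, h, ?_⟩
    rw [Matrix.toLin'_apply, Matrix.mulVec_mulVec, h2, Matrix.one_mulVec]

private theorem exists_mnl {N : Subgroup (GL n F)} {U : Submodule F (n → F)} (hU : Stb N U) (hU0 : U ≠ ⊥) :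
    ∃ W, Mnl N W ∧ W ≤ U := by
  classical
  have hex : ∃ k, ∃ W : Submodule F (n → F), Stb N W ∧ W ≠ ⊥ ∧ W ≤ U ∧ Module.finrank F W = k :=
    ⟨_, U, hU, hU0, le_rfl, rfl⟩
  obtain ⟨W, h1, h2, h3, h4⟩ := Nat.find_spec hex
  refine ⟨W, ⟨h1, h2, fun W' h5 h6 => ?_⟩, h3⟩
  by_cases h7 : W' = ⊥
  · exact Or.inl h7
  · right
    have h8 := Nat.find_min' hex ⟨W', h5, h7, h6.trans h3, rfl⟩
    rw [← h4] at h8
    exact Submodule.eq_of_le_of_finrank_le h6 h8

private theorem mnl_gW {Γ N : Subgroup (GL n F)} (hnorm : ∀ g ∈ Γ, ∀ h ∈ N, g * h * g⁻¹ ∈ N)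
    {W : Submodule F (n → F)} (hW : Mnl N W) {g : GL n F} (hg : g ∈ Γ) : Mnl N (gW g W) := by
  obtain ⟨hWN, hW0, hWmin⟩ := hW
  refine ⟨?_, ?_, ?_⟩
  · intro h hh v hv
    rw [mem_gW] at hv ⊢
    have h1 : g⁻¹ * h * g ∈ N := by
      have := hnorm g⁻¹ (Γ.inv_mem hg) h hh
      rwa [inv_inv] at this
    have h2 := hWN _ h1 _ hv
    have h3 : ((g⁻¹ * h * g : GL n F) : Matrix n n F) *ᵥ (((g⁻¹ : GL n F) : Matrix n n F) *ᵥ v) =
        ((g⁻¹ : GL n F) : Matrix n n F) *ᵥ ((h : Matrix n n F) *ᵥ v) := by
      rw [Matrix.mulVec_mulVec, Matrix.mulVec_mulVec, ← Units.val_mul, ← Units.val_mul]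
      congr 2
      group
    rw [h3] at h2
    exact h2
  · intro h0
    apply hW0
    rw [Submodule.eq_bot_iff]
    intro v hv
    have h1 : (g : Matrix n n F) *ᵥ v ∈ gW g W := by
      rw [mem_gW, Matrix.mulVec_mulVec, ← Units.val_mul, inv_mul_cancel, Units.val_one, Matrix.one_mulVec]
      exact hv
    rw [h0, Submodule.mem_bot] at h1
    have h2 := congrArg (fun u => ((g⁻¹ : GL n F) : Matrix n n F) *ᵥ u) h1
    simp only [Matrix.mulVec_zero] at h2
    rwa [Matrix.mulVec_mulVec, ← Units.val_mul, inv_mul_cancel, Units.val_one, Matrix.one_mulVec] at h2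
  · intro W' h1 h2
    have h3 : Stb N (gW g⁻¹ W') := by
      intro h hh v hv
      rw [mem_gW, inv_inv] at hv ⊢
      have h4 := h1 _ (hnorm g hg h hh) _ hv
      have h5 : ((g * h * g⁻¹ : GL n F) : Matrix n n F) *ᵥ ((g : Matrix n n F) *ᵥ v) =
          (g : Matrix n n F) *ᵥ ((h : Matrix n n F) *ᵥ v) := by
        rw [Matrix.mulVec_mulVec, Matrix.mulVec_mulVec, ← Units.val_mul, ← Units.val_mul]
        congr 2
        group
      rw [h5] at h4
      exact h4
    have hback : ∀ v, v ∈ W' ↔ ((g⁻¹ : GL n F) : Matrix n n F) *ᵥ v ∈ gW g⁻¹ W' := by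
      intro v
      rw [mem_gW, inv_inv, Matrix.mulVec_mulVec, ← Units.val_mul, mul_inv_cancel, Units.val_one, Matrix.one_mulVec]
    rcases hWmin _ h3 (by
      intro v hv
      rw [mem_gW, inv_inv] at hv
      have h4 := h2 hv
      rwa [mem_gW, Matrix.mulVec_mulVec, ← Units.val_mul, inv_mul_cancel, Units.val_one, Matrix.one_mulVec] at h4)
      with h4 | h4
    · left
      rw [Submodule.eq_bot_iff]
      intro v hv
      have h5 := (hback v).1 hv
      rw [h4, Submodule.mem_bot] at h5
      have h6 := congrArg (fun u => (g : Matrix n n F) *ᵥ u) h5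
      simp only [Matrix.mulVec_zero] at h6
      rwa [Matrix.mulVec_mulVec, ← Units.val_mul, mul_inv_cancel, Units.val_one, Matrix.one_mulVec] at h6
    · right
      ext v
      rw [hback v, h4, mem_gW]

/-- **Clifford's theorem**: a normal subgroup of a semisimple group is semisimple. -/
theorem SemiS.normal {Γ N : Subgroup (GL n F)} (hN : N ≤ Γ) (hnorm : ∀ g ∈ Γ, ∀ h ∈ N, g * h * g⁻¹ ∈ N)
    (hss : SemiS Γ) : SemiS N := by
  intro U hU
  -- the sum of the minimal stable subspaces
  obtain ⟨M, hM⟩ : ∃ M : Submodule F (n → F), M = ⨆ W : {W : Submodule F (n → F) // Mnl N W}, W.1 := ⟨_, rfl⟩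
  have hMst : Stb Γ M := by
    intro h hh v hv
    rw [hM] at hv ⊢
    induction hv using Submodule.iSup_induction' with
    | mem W x hx =>
      refine Submodule.mem_iSup_of_mem ⟨gW h W.1, mnl_gW hnorm W.2 hh⟩ ?_
      change (h : Matrix n n F) *ᵥ x ∈ gW h W.1
      rw [mem_gW, Matrix.mulVec_mulVec, ← Units.val_mul, inv_mul_cancel, Units.val_one, Matrix.one_mulVec]
      exact hx
    | zero =>
      rw [Matrix.mulVec_zero]
      exact Submodule.zero_mem _
    | add x y _ _ hx hy =>
      rw [Matrix.mulVec_add]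
      exact Submodule.add_mem _ hx hy
  have hMtop : M = ⊤ := by
    obtain ⟨M', h1, h2⟩ := hss _ hMst
    have h3 : M' = ⊥ := by
      by_contra hne
      obtain ⟨W, hW, hle⟩ := exists_mnl (N := N) (U := M') (fun g hg w hw => h1 g (hN hg) w hw) hne
      apply hW.2.1
      rw [eq_bot_iff, ← h2.inf_eq_bot]
      refine le_inf ?_ hle
      rw [hM]
      exact le_iSup (fun W : {W : Submodule F (n → F) // Mnl N W} => W.1) ⟨W, hW⟩
    have h4 := h2.sup_eq_top
    rwa [h3, sup_bot_eq] at h4
  -- a maximal stable subspace that meets `U` trivially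
  obtain ⟨U', hU'N, hUU', hmax⟩ : ∃ U' : Submodule F (n → F), Stb N U' ∧ U ⊓ U' = ⊥ ∧
      ∀ U'', Stb N U'' → U ⊓ U'' = ⊥ → Module.finrank F U'' ≤ Module.finrank F U' := by
    have hb : ∀ W : Submodule F (n → F), Module.finrank F W ≤ Module.finrank F (n → F) := fun W => Submodule.finrank_le W
    have hex : ∃ k, ∃ W : Submodule F (n → F), Stb N W ∧ U ⊓ W = ⊥ ∧
        Module.finrank F (n → F) - Module.finrank F W = k :=
      ⟨_, ⊥, fun g _ w hw => by
        rw [Submodule.mem_bot] at hw ⊢
        rw [hw, Matrix.mulVec_zero], inf_bot_eq _, rfl⟩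
    classical
    obtain ⟨W, h1, h2, h3⟩ := Nat.find_spec hex
    refine ⟨W, h1, h2, fun U'' h4 h5 => ?_⟩
    have h7 := Nat.find_min' hex ⟨U'', h4, h5, rfl⟩
    rw [← h3] at h7
    have := hb U''
    have := hb W
    omega
  refine ⟨U', hU'N, disjoint_iff.2 hUU', codisjoint_iff.2 ?_⟩
  by_contra hne
  obtain ⟨W, hW, hg⟩ : ∃ W, Mnl N W ∧ ¬ W ≤ U ⊔ U' := by
    by_contra! hcon
    apply hne
    rw [eq_top_iff, ← hMtop, hM]
    exact iSup_le fun W => hcon W.1 W.2
  have hstU : Stb N (U ⊔ U') := by
    intro h hh v hv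
    obtain ⟨x, hx, y, hy, rfl⟩ := Submodule.mem_sup.1 hv
    rw [Matrix.mulVec_add]
    exact Submodule.add_mem_sup (hU h hh x hx) (hU'N h hh y hy)
  have hint : (U ⊔ U') ⊓ W = ⊥ := by
    rcases hW.2.2 ((U ⊔ U') ⊓ W) (fun h hh v hv =>
      ⟨hstU h hh v hv.1, hW.1 h hh v hv.2⟩) inf_le_right with h1 | h1
    · exact h1
    · exact absurd (inf_eq_right.1 h1) hg
  have hst2 : Stb N (U' ⊔ W) := by
    intro h hh v hv
    obtain ⟨x, hx, y, hy, rfl⟩ := Submodule.mem_sup.1 hv
    rw [Matrix.mulVec_add]
    exact Submodule.add_mem_sup (hU'N h hh x hx) (hW.1 h hh y hy)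
  have hint2 : U ⊓ (U' ⊔ W) = ⊥ := by
    rw [Submodule.eq_bot_iff]
    rintro v ⟨h1, h2⟩
    obtain ⟨x, hx, y, hy, rfl⟩ := Submodule.mem_sup.1 h2
    have h3 : y ∈ (U ⊔ U') ⊓ W := by
      refine ⟨?_, hy⟩
      have : y = (x + y) - x := by abel
      rw [this]
      exact Submodule.sub_mem _ (Submodule.mem_sup_left h1) (Submodule.mem_sup_right hx)
    rw [hint, Submodule.mem_bot] at h3
    rw [h3, add_zero] at h1 ⊢
    have h4 : x ∈ U ⊓ U' := ⟨h1, hx⟩
    rwa [hUU', Submodule.mem_bot] at h4
  have h1 := hmax _ hst2 hint2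
  have h2 : U' = U' ⊔ W := Submodule.eq_of_le_of_finrank_le le_sup_left h1
  apply hg
  calc W ≤ U' ⊔ W := le_sup_right
    _ = U' := h2.symm
    _ ≤ U ⊔ U' := le_sup_right

/-- the span of the group -/
def spG (N : Subgroup (GL n F)) : Submodule F (Matrix n n F) :=
  Submodule.span F {x | ∃ g ∈ N, x = (g : Matrix n n F)}

theorem spG_mul {N : Subgroup (GL n F)} {x y : Matrix n n F} (hx : x ∈ spG N) (hy : y ∈ spG N) : x * y ∈ spG N := by
  unfold spG at hx
  induction hx using Submodule.span_induction with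
  | mem x hx =>
    obtain ⟨g, hg, rfl⟩ := hx
    unfold spG at hy
    induction hy using Submodule.span_induction with
    | mem y hy =>
      obtain ⟨h, hh, rfl⟩ := hy
      exact Submodule.subset_span ⟨g * h, N.mul_mem hg hh, by rw [Units.val_mul]⟩
    | zero => rw [mul_zero]; exact Submodule.zero_mem _
    | add a b _ _ ha hb => rw [mul_add]; exact Submodule.add_mem _ ha hb
    | smul c a _ ha => rw [mul_smul_comm]; exact Submodule.smul_mem _ c ha
  | zero => rw [zero_mul]; exact Submodule.zero_mem _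
  | add a b _ _ ha hb => rw [add_mul]; exact Submodule.add_mem _ ha hb
  | smul c a _ ha => rw [smul_mul_assoc]; exact Submodule.smul_mem _ c ha

theorem one_spG {N : Subgroup (GL n F)} : (1 : Matrix n n F) ∈ spG N :=
  Submodule.subset_span ⟨1, N.one_mem, by rw [Units.val_one]⟩

/-- the span as an algebra of endomorphisms -/
private noncomputable def alg (N : Subgroup (GL n F)) : Subalgebra F (Module.End F (n → F)) where
  carrier := {φ | LinearMap.toMatrix' φ ∈ spG N}
  mul_mem' := by
    intro a b ha hb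
    change LinearMap.toMatrix' (a * b) ∈ spG N
    rw [Module.End.mul_eq_comp, LinearMap.toMatrix'_comp]
    exact spG_mul ha hb
  add_mem' := by
    intro a b ha hb
    change LinearMap.toMatrix' (a + b) ∈ spG N
    rw [map_add]
    exact Submodule.add_mem _ ha hb
  algebraMap_mem' := by
    intro c
    change LinearMap.toMatrix' (algebraMap F (Module.End F (n → F)) c) ∈ spG N
    have e1 : algebraMap F (Module.End F (n → F)) c = c • LinearMap.id := by
      ext v
      simp
    rw [e1, map_smul, LinearMap.toMatrix'_id]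
    exact Submodule.smul_mem _ c one_spG

/-- **The double commutant.** -/
theorem mem_spG_of_comm {N : Subgroup (GL n F)} (hss : SemiS N) {T : Matrix n n F}
    (hT : ∀ K : Matrix n n F, (∀ g ∈ N, (g : Matrix n n F) * K = K * (g : Matrix n n F)) → T * K = K * T) :
    T ∈ spG N := by
  classical
  have hA : ∀ (φ : alg N) (v : n → F), φ • v = LinearMap.toMatrix' φ.1 *ᵥ v := by
    intro φ v
    change φ.1 v = _
    rw [← Matrix.toLin'_apply, Matrix.toLin'_toMatrix']
  have hgA : ∀ g ∈ N, Matrix.toLin' (g : Matrix n n F) ∈ alg N := by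
    intro g hg
    change LinearMap.toMatrix' (Matrix.toLin' (g : Matrix n n F)) ∈ spG N
    rw [LinearMap.toMatrix'_toLin']
    exact Submodule.subset_span ⟨g, hg, rfl⟩
  have hsemi : IsSemisimpleModule (alg N) (n → F) := by
    refine { exists_isCompl := fun W => ?_ }
    have hWst : ∀ g ∈ N, ∀ w ∈ W.restrictScalars F, (g : Matrix n n F) *ᵥ w ∈ W.restrictScalars F := by
      intro g hg w hw
      have h1 := W.smul_mem (⟨_, hgA g hg⟩ : alg N) hw
      rw [hA] at h1
      rw [LinearMap.toMatrix'_toLin'] at h1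
      exact h1
    obtain ⟨W', h1, h2⟩ := hss _ hWst
    have h3 : ∀ x ∈ spG N, ∀ w ∈ W', x *ᵥ w ∈ W' := by
      intro x hx w hw
      unfold spG at hx
      induction hx using Submodule.span_induction with
      | mem x hx =>
        obtain ⟨g, hg, rfl⟩ := hx
        exact h1 g hg w hw
      | zero => rw [Matrix.zero_mulVec]; exact W'.zero_mem
      | add a b _ _ ha hb => rw [Matrix.add_mulVec]; exact W'.add_mem ha hb
      | smul c a _ ha => rw [Matrix.smul_mulVec]; exact W'.smul_mem c ha
    let V : Submodule (alg N) (n → F) :=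
      { carrier := W'
        add_mem' := fun ha hb => W'.add_mem ha hb
        zero_mem' := W'.zero_mem
        smul_mem' := fun φ v hv => by
          change φ • v ∈ W'
          rw [hA]
          exact h3 _ φ.2 v hv }
    refine ⟨V, ?_, ?_⟩
    · rw [Submodule.disjoint_def]
      intro x hx hx'
      have h4 : x ∈ W.restrictScalars F ⊓ W' := ⟨hx, hx'⟩
      rwa [h2.inf_eq_bot, Submodule.mem_bot] at h4
    · rw [codisjoint_iff, Submodule.eq_top_iff']
      intro x
      have h4 : x ∈ W.restrictScalars F ⊔ W' := by rw [h2.sup_eq_top]; exact Submodule.mem_top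
      obtain ⟨a, ha, b, hb, rfl⟩ := Submodule.mem_sup.1 h4
      exact Submodule.add_mem_sup ha hb
  let f : Module.End (Module.End (alg N) (n → F)) (n → F) :=
    { toFun := fun v => T *ᵥ v
      map_add' := fun u v => Matrix.mulVec_add _ _ _
      map_smul' := by
        intro φ v
        have hφ : ∀ c : F, ∀ u : n → F, φ (c • u) = c • φ u := by
          intro c u
          have h1 : ∀ u : n → F, (algebraMap F (alg N) c) • u = c • u := by
            intro u
            rw [hA]
            have e1 : ((algebraMap F (alg N) c : alg N) : Module.End F (n → F)) = c • LinearMap.id := by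
              ext v
              simp
            rw [e1, map_smul, LinearMap.toMatrix'_id, Matrix.smul_mulVec, Matrix.one_mulVec]
          rw [← h1 u, map_smul, h1]
        let ψ : (n → F) →ₗ[F] (n → F) := { toFun := φ, map_add' := map_add φ, map_smul' := hφ }
        have h2 : ∀ u, φ u = LinearMap.toMatrix' ψ *ᵥ u := by
          intro u
          rw [← Matrix.toLin'_apply, Matrix.toLin'_toMatrix']
          rfl
        have h3 := hT (LinearMap.toMatrix' ψ) (by
          intro g hg
          apply Matrix.toLin'.injective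
          apply LinearMap.ext
          intro u
          rw [Matrix.toLin'_mul, Matrix.toLin'_mul, LinearMap.comp_apply, LinearMap.comp_apply, Matrix.toLin'_apply,
            Matrix.toLin'_apply, Matrix.toLin'_apply, Matrix.toLin'_apply, ← h2, ← h2]
          have h4 := map_smul φ (⟨_, hgA g hg⟩ : alg N) u
          rw [hA, hA, LinearMap.toMatrix'_toLin'] at h4
          exact h4.symm)
        change T *ᵥ (φ • v) = φ • (T *ᵥ v)
        change T *ᵥ (φ v) = φ (T *ᵥ v)
        rw [h2, h2, Matrix.mulVec_mulVec, Matrix.mulVec_mulVec, h3] }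
  obtain ⟨r, hr⟩ := jacobson_density (R := alg N) (M := n → F) f (Finset.univ.image fun i : n => (Pi.single i (1 : F) : n → F))
  have h1 : T = LinearMap.toMatrix' r.1 := by
    apply Matrix.toLin'.injective
    rw [Matrix.toLin'_toMatrix']
    refine LinearMap.pi_ext' fun i => LinearMap.ext_ring ?_
    have h2 := hr (Pi.single i (1 : F)) (Finset.mem_image_of_mem _ (Finset.mem_univ i))
    change T *ᵥ (Pi.single i (1 : F)) = r • (Pi.single i (1 : F) : n → F) at h2
    simp only [LinearMap.comp_apply, LinearMap.single_apply]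
    rw [Matrix.toLin'_apply]
    exact h2
  rw [h1]
  exact r.2

/-- **Extension of scalars**: a complex matrix that commutes with the commutant of `N` is in the complex span of `N`. -/
theorem mem_spG_map {ι : F →+* ℂ} {N : Subgroup (GL n F)} (hss : SemiS N) {X : Matrix n n ℂ}
    (hX : ∀ K : Matrix n n F, (∀ g ∈ N, (g : Matrix n n F) * K = K * (g : Matrix n n F)) →
      X * K.map ι = K.map ι * X) : X ∈ spG (N.map (Matrix.GeneralLinearGroup.map ι)) := by
  classical
  letI : Algebra F ℂ := ι.toAlgebra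
  have hsm : ∀ (c : F) (z : ℂ), c • z = ι c * z := fun c z => rfl
  let b := Module.Basis.ofVectorSpace F ℂ
  -- the coordinates
  have h1 : ∀ j, X.map (fun z => b.repr z j) ∈ spG N := by
    intro j
    refine mem_spG_of_comm hss fun K hK => ?_
    have h2 := hX K hK
    ext a c
    have h3 := congrFun (congrFun h2 a) c
    rw [Matrix.mul_apply, Matrix.mul_apply] at h3 ⊢
    have h4 := congrArg (fun z => b.repr z j) h3
    simp only [map_sum, Finsupp.coe_finset_sum, Finset.sum_apply, Matrix.map_apply] at h4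
    have e1 : ∀ d, b.repr (X a d * ι (K d c)) j = b.repr (X a d) j * K d c := by
      intro d
      rw [mul_comm, ← hsm, map_smul, Finsupp.smul_apply, smul_eq_mul, mul_comm]
    have e2 : ∀ d, b.repr (ι (K a d) * X d c) j = K a d * b.repr (X d c) j := by
      intro d
      rw [← hsm, map_smul, Finsupp.smul_apply, smul_eq_mul]
    simp only [e1, e2] at h4
    simp only [Matrix.map_apply]
    exact h4
  have h2 : ∀ Y : Matrix n n F, Y ∈ spG N → Y.map ι ∈ spG (N.map (Matrix.GeneralLinearGroup.map ι)) := by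
    intro Y hY
    unfold spG at hY
    induction hY using Submodule.span_induction with
    | mem x hx =>
      obtain ⟨g, hg, rfl⟩ := hx
      exact Submodule.subset_span ⟨_, Subgroup.mem_map_of_mem _ hg, rfl⟩
    | zero =>
      rw [Matrix.map_zero _ (map_zero ι)]
      exact Submodule.zero_mem _
    | add x y _ _ hx hy =>
      rw [Matrix.map_add _ (map_add ι)]
      exact Submodule.add_mem _ hx hy
    | smul c x _ hx =>
      have e1 : (c • x).map ι = ι c • x.map ι := by
        ext i j
        simp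
      rw [e1]
      exact Submodule.smul_mem _ _ hx
  let J : Finset _ := Finset.univ.biUnion fun a : n => Finset.univ.biUnion fun c : n => (b.repr (X a c)).support
  have h3 : X = ∑ j ∈ J, b j • (X.map (fun z => b.repr z j)).map ι := by
    ext a c
    rw [Matrix.sum_apply]
    have e1 : X a c = ∑ j ∈ J, b.repr (X a c) j • b j := by
      conv_lhs => rw [← b.linearCombination_repr (X a c), Finsupp.linearCombination_apply, Finsupp.sum]
      refine Finset.sum_subset ?_ ?_
      · intro j hj
        exact Finset.mem_biUnion.2 ⟨a, Finset.mem_univ a, Finset.mem_biUnion.2 ⟨c, Finset.mem_univ c, hj⟩⟩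
      · intro j _ hj
        rw [Finsupp.notMem_support_iff.1 hj, zero_smul]
    conv_lhs => rw [e1]
    refine Finset.sum_congr rfl fun j _ => ?_
    rw [Matrix.smul_apply, Matrix.map_apply, Matrix.map_apply, hsm, smul_eq_mul, mul_comm]
  rw [h3]
  exact Submodule.sum_mem _ fun j _ => Submodule.smul_mem _ _ (h2 _ (h1 j))

end MH
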