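import Pool.Agent.Helper14.PF.CoreFin
import Pool.Agent.Helper71.OW.FullO
import Pool.Agent.Helper98.PF.Dich
import Pool.Agent.Helper98.GH.Sin

/-!
Project PF with blocks (MP_b8862a_ag): a Lie algebra of matrices with an invariant symmetric or alternating form is everything,
by the core statement.
-/

set_option linter.unusedSectionVars false

open Matrix GH OW

namespace MH

variable {n : Type*} [Fintype n] [DecidableEq n]

/-- the data of the Lie algebra theorem, for a symmetric or alternating form -/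
theorem dat_gen14 [Nonempty n] {Q' Qi : Matrix n n ℂ} {c0 : ℂ} (hc0 : c0 * c0 = 1) (hQs : Q'ᵀ = c0 • Q')
    (hQ1 : Q' * Qi = 1) (hQ2 : Qi * Q' = 1)
    {L : Submodule ℂ (Matrix n n ℂ)} (hbr : ∀ X ∈ L, ∀ Y ∈ L, X * Y - Y * X ∈ L)
    (hcom : ∀ T : Matrix n n ℂ, (∀ X ∈ L, T * X = X * T) → ∃ c : ℂ, T = c • (1 : Matrix n n ℂ))
    (hsk : ∀ X ∈ L, Xᵀ * Q' + Q' * X = 0) {h : Matrix n n ℂ} (hh : h ∈ L) {E : ℝ → Matrix n n ℂ} {Λ : Finset ℝ}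
    (hE : SD h E Λ) {B Bi : Matrix n n ℂ} (h1 : B * Bi = 1) (h2 : Bi * B = 1) (h3 : (cj B Bi h)ᴴ = cj B Bi h)
    (h4 : ∀ X ∈ L, cj Bi B (cj B Bi X)ᴴ ∈ L) :
    Dat (tG71 (B * Qi * Bᵀ) (Biᵀ * Q' * Bi)) (LBB71 L B Bi) (cj B Bi h) (fun μ => cj B Bi (E μ)) Λ ∧
      (Biᵀ * Q' * Bi) * (B * Qi * Bᵀ) = 1 ∧ (B * Qi * Bᵀ) * (Biᵀ * Q' * Bi) = 1 ∧
        (Biᵀ * Q' * Bi)ᵀ = c0 • (Biᵀ * Q' * Bi) := by
  have b1 : Bᵀ * Biᵀ = 1 := by rw [← Matrix.transpose_mul, h2, Matrix.transpose_one]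
  have b2 : Biᵀ * Bᵀ = 1 := by rw [← Matrix.transpose_mul, h1, Matrix.transpose_one]
  have hGiG : B * Qi * Bᵀ * (Biᵀ * Q' * Bi) = 1 := by
    calc B * Qi * Bᵀ * (Biᵀ * Q' * Bi) = B * Qi * (Bᵀ * Biᵀ) * Q' * Bi := by simp only [mul_assoc]
      _ = B * (Qi * Q') * Bi := by rw [b1, mul_one]; simp only [mul_assoc]
      _ = 1 := by rw [hQ2, mul_one, h1]
  have hGGi : Biᵀ * Q' * Bi * (B * Qi * Bᵀ) = 1 := by
    calc Biᵀ * Q' * Bi * (B * Qi * Bᵀ) = Biᵀ * Q' * (Bi * B) * Qi * Bᵀ := by simp only [mul_assoc]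
      _ = Biᵀ * (Q' * Qi) * Bᵀ := by rw [h2, mul_one]; simp only [mul_assoc]
      _ = 1 := by rw [hQ1, mul_one, b2]
  have hGt : (Biᵀ * Q' * Bi)ᵀ = c0 • (Biᵀ * Q' * Bi) := by
    rw [Matrix.transpose_mul, Matrix.transpose_mul, Matrix.transpose_transpose, hQs, smul_mul_assoc, mul_smul_comm,
      mul_assoc]
  have hsk' : ∀ x ∈ LBB71 L B Bi, tG71 (B * Qi * Bᵀ) (Biᵀ * Q' * Bi) x = -x := by
    intro x hx
    have e1 := tG_cj71 (B := B) hQ2 h2 (hsk _ (mem_LBB71.1 hx))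
    rwa [cj_cj h1] at e1
  have hst' : ∀ x ∈ LBB71 L B Bi, xᴴ ∈ LBB71 L B Bi := by
    intro x hx
    have e1 := h4 _ (mem_LBB71.1 hx)
    rwa [cj_cj h1] at e1
  have hirr' : ∀ T : Matrix n n ℂ, (∀ x ∈ LBB71 L B Bi, T * x = x * T) → ∃ c : ℂ, T = c • (1 : Matrix n n ℂ) := by
    intro T hT
    obtain ⟨c, hc⟩ := hcom (cj Bi B T) (by
      intro X hX
      have e1 := hT (cj B Bi X) (by rw [mem_LBB71, cj_cj h2]; exact hX)
      have e2 := congrArg (cj Bi B) e1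
      rwa [← cj_mul h1, ← cj_mul h1, cj_cj h2] at e2)
    refine ⟨c, ?_⟩
    have e3 := congrArg (cj B Bi) hc
    rwa [cj_cj h1, cj_smul, cj_one h1] at e3
  refine ⟨?_, hGGi, hGiG, hGt⟩
  generalize B * Qi * Bᵀ = Gi at hGiG hGGi hsk' ⊢
  generalize Biᵀ * Q' * Bi = G at hGiG hGGi hGt hsk' ⊢
  have hGit : Giᵀ = c0 • Gi := by
    have e1 : Giᵀ * G = c0 • (1 : Matrix n n ℂ) := by
      have e2 := congrArg Matrix.transpose hGGi
      rw [Matrix.transpose_mul, hGt, Matrix.transpose_one, mul_smul_comm] at e2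
      rw [← e2, smul_smul, hc0, one_smul]
    calc Giᵀ = Giᵀ * (G * Gi) := by rw [hGGi, mul_one]
      _ = c0 • Gi := by rw [← mul_assoc, e1, smul_mul_assoc, one_mul]
  have hsk2 : ∀ x ∈ LBB71 L B Bi, xᵀ * G = -(G * x) := by
    intro x hx
    calc xᵀ * G = G * (Gi * xᵀ * G) := by simp only [← mul_assoc]; rw [hGGi, one_mul]
      _ = -(G * x) := by rw [← tG71_apply, hsk' x hx, mul_neg]
  obtain ⟨c, hc⟩ := hirr' (Gᴴ * G) (by
    intro x hx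
    have e1 : (xᴴ)ᵀ * G = -(G * xᴴ) := hsk2 _ (hst' x hx)
    have e2 : Gᴴ * xᵀ = -(x * Gᴴ) := by
      have e3 := congrArg Matrix.conjTranspose e1
      rw [Matrix.conjTranspose_mul, Matrix.conjTranspose_neg, Matrix.conjTranspose_mul,
        Matrix.conjTranspose_conjTranspose] at e3
      have e4 : ((xᴴ)ᵀ)ᴴ = xᵀ := by
        have : (xᴴ)ᵀ = (xᵀ)ᴴ := rfl
        rw [this, Matrix.conjTranspose_conjTranspose]
      rwa [e4] at e3
    calc Gᴴ * G * x = -(Gᴴ * xᵀ * G) := by rw [mul_assoc, mul_assoc, hsk2 x hx, mul_neg, neg_neg]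
      _ = x * (Gᴴ * G) := by rw [e2, neg_mul, neg_neg, mul_assoc])
  have hcr : starRingEnd ℂ c = c := by
    have e1 : (Gᴴ * G)ᴴ = Gᴴ * G := by rw [Matrix.conjTranspose_mul, Matrix.conjTranspose_conjTranspose]
    rw [hc, Matrix.conjTranspose_smul, Matrix.conjTranspose_one] at e1
    obtain ⟨i⟩ := (inferInstance : Nonempty n)
    have e2 := congrFun (congrFun e1 i) i
    simpa using e2
  have hG1 : Gᴴ = c • Gi := by
    calc Gᴴ = Gᴴ * G * Gi := by rw [mul_assoc, hGGi, mul_one]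
      _ = c • Gi := by rw [hc, smul_mul_assoc, one_mul]
  have hG2 : G = c • Giᴴ := by
    have e1 := congrArg Matrix.conjTranspose hG1
    rw [Matrix.conjTranspose_conjTranspose, Matrix.conjTranspose_smul] at e1
    rw [e1]
    congr 1
  refine ⟨⟨?_, ?_, ?_, ?_⟩, spec_of98 (sd_cj98 hE h1 h2) h3, hsk', ?_, hst', hirr', ?_⟩
  · intro x y
    rw [tG71_apply, tG71_apply, tG71_apply, Matrix.transpose_mul]
    calc Gi * (yᵀ * xᵀ) * G = Gi * yᵀ * 1 * xᵀ * G := by rw [mul_one, ← mul_assoc Gi]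
      _ = Gi * yᵀ * G * (Gi * xᵀ * G) := by rw [← hGGi]; simp only [mul_assoc]
  · intro x
    rw [tG71_apply, tG71_apply, Matrix.transpose_mul, Matrix.transpose_mul, Matrix.transpose_transpose, hGt, hGit]
    calc Gi * (c0 • G * (x * c0 • Gi)) * G = (c0 * c0) • (Gi * G * x * (Gi * G)) := by
          simp only [smul_mul_assoc, mul_smul_comm, smul_smul, mul_assoc]
      _ = x := by rw [hGiG, one_mul, mul_one, hc0, one_smul]
  · intro x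
    rw [tG71_apply, tG71_apply, Matrix.conjTranspose_mul, Matrix.conjTranspose_mul]
    have e1 : (xᴴ)ᵀ = (xᵀ)ᴴ := rfl
    rw [e1]
    calc Gi * (xᵀ)ᴴ * G = c • (Gi * (xᵀ)ᴴ * Giᴴ) := by
          conv_lhs => rw [hG2]
          rw [mul_smul_comm]
      _ = Gᴴ * ((xᵀ)ᴴ * Giᴴ) := by rw [hG1, smul_mul_assoc, mul_assoc]
  · intro x
    rw [tG71_apply, mul_assoc, Matrix.trace_mul_comm, mul_assoc, hGGi, mul_one, Matrix.trace_transpose]
  · intro x hx y hy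
    rw [mem_LBB71, cj_sub, ← cj_mul h1, ← cj_mul h1]
    exact hbr _ (mem_LBB71.1 hx) _ (mem_LBB71.1 hy)
  · rw [mem_LBB71, cj_cj h2]
    exact hh

/-- a Lie algebra with scalar commutant and a compact form is everything, by the core statement -/
theorem full_coreG14 [Nonempty n] {w : ℤ} {Q' Qi : Matrix n n ℂ} (hQs : Q'ᵀ = Q' ∨ Q'ᵀ = -Q') (hQ1 : Q' * Qi = 1)
    (hQ2 : Qi * Q' = 1)
    {L : Submodule ℂ (Matrix n n ℂ)} (hbr : ∀ X ∈ L, ∀ Y ∈ L, X * Y - Y * X ∈ L)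
    (hcom : ∀ T : Matrix n n ℂ, (∀ X ∈ L, T * X = X * T) → ∃ c : ℂ, T = c • (1 : Matrix n n ℂ))
    (hsk : ∀ X ∈ L, Xᵀ * Q' + Q' * X = 0) {h : Matrix n n ℂ} (hh : h ∈ L) {E : ℝ → Matrix n n ℂ} {Λ : Finset ℝ}
    (hE : SD h E Λ) (hw : ∀ μ : ℝ, E μ ≠ 0 → ∃ p : ℤ, μ = ((2 * p - w : ℤ) : ℝ))
    (hI : NI.Indec w (fun p : ℤ => (E ((2 * p - w : ℤ) : ℝ)).rank))
    (hd : ∀ d : ℕ, (∀ μ ∈ Λ, d ∣ (E μ).rank) → d = 1)
    (hcore : CoreW n w (fun p : ℤ => (E ((2 * p - w : ℤ) : ℝ)).rank))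
    (hherm : ∃ B Bi : Matrix n n ℂ, B * Bi = 1 ∧ Bi * B = 1 ∧
      (cj B Bi h)ᴴ = cj B Bi h ∧ ∀ X ∈ L, cj Bi B (cj B Bi X)ᴴ ∈ L)
    {X : Matrix n n ℂ} (hX : Xᵀ * Q' + Q' * X = 0) : X ∈ L := by
  classical
  obtain ⟨c0, hc0, hQs'⟩ : ∃ c0 : ℂ, c0 * c0 = 1 ∧ Q'ᵀ = c0 • Q' := by
    rcases hQs with h | h
    · exact ⟨1, by norm_num, by rw [h, one_smul]⟩
    · exact ⟨-1, by norm_num, by rw [h, neg_one_smul]⟩
  obtain ⟨B, Bi, h1, h2, h3, h4⟩ := hherm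
  obtain ⟨D, f1, f2, hF⟩ := dat_gen14 hc0 hQs' hQ1 hQ2 hbr hcom hsk hh hE h1 h2 h3 h4
  have hEE : ∀ μ, E μ * E μ = E μ := fun μ => by rw [hE.mul, if_pos rfl]
  have r1 : ∀ μ, (cj B Bi (E μ)).rank = (E μ).rank := fun μ => rank_cj h1 h2 (hEE μ)
  have hw' : ∀ μ : ℝ, cj B Bi (E μ) ≠ 0 → ∃ p : ℤ, μ = ((2 * p - w : ℤ) : ℝ) := fun μ hμ => hw μ fun h0 => hμ (by
    rw [h0, cj_zero])
  have hsmp : Smp (LBB71 L B Bi) := by
    refine D.smp_of_gcdW f1 f2 hc0 hF (fun x => rfl) (w := w) hw' ?_ ?_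
    · simp only [r1]
      exact hI
    · intro d hdd
      apply hd
      intro μ hμ
      have := hdd μ hμ
      rwa [r1] at this
  have hx : (cj B Bi X)ᵀ * (Biᵀ * Q' * Bi) + (Biᵀ * Q' * Bi) * cj B Bi X = 0 := by
    have b1 : Bᵀ * Biᵀ = 1 := by rw [← Matrix.transpose_mul, h2, Matrix.transpose_one]
    have e1 : (cj B Bi X)ᵀ * (Biᵀ * Q' * Bi) = Biᵀ * (Xᵀ * Q') * Bi := by
      unfold cj
      rw [Matrix.transpose_mul, Matrix.transpose_mul]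
      calc Biᵀ * (Xᵀ * Bᵀ) * (Biᵀ * Q' * Bi) = Biᵀ * Xᵀ * (Bᵀ * Biᵀ) * Q' * Bi := by simp only [mul_assoc]
        _ = _ := by rw [b1, mul_one]; simp only [mul_assoc]
    have e2 : (Biᵀ * Q' * Bi) * cj B Bi X = Biᵀ * (Q' * X) * Bi := by
      unfold cj
      calc Biᵀ * Q' * Bi * (B * X * Bi) = Biᵀ * Q' * (Bi * B) * X * Bi := by simp only [mul_assoc]
        _ = _ := by rw [h2, mul_one]; simp only [mul_assoc]
    rw [e1, e2, ← Matrix.add_mul, ← Matrix.mul_add, hX, mul_zero, zero_mul]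
  have hsym : (Biᵀ * Q' * Bi)ᵀ = Biᵀ * Q' * Bi ∨ (Biᵀ * Q' * Bi)ᵀ = -(Biᵀ * Q' * Bi) := by
    rcases mul_self_eq_one_iff.1 hc0 with h | h
    · left
      rw [hF, h, one_smul]
    · right
      rw [hF, h, neg_one_smul]
  have hmem : cj B Bi X ∈ LBB71 L B Bi := by
    refine hcore (Biᵀ * Q' * Bi) (B * Qi * Bᵀ) hsym f1 f2 (LBB71 L B Bi) D.br
      (fun W hW => D.stable W hW) ?_ hsmp (cj B Bi h) (fun μ => cj B Bi (E μ)) Λ D.mem
      ⟨D.spec.mul, D.spec.sum, D.spec.eq⟩ hw' (fun p => r1 _) _ hx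
    intro Z hZ
    have e1 := D.sk Z hZ
    rw [tG71_apply] at e1
    have e2 : Zᵀ * (Biᵀ * Q' * Bi) = -((Biᵀ * Q' * Bi) * Z) := by
      calc Zᵀ * (Biᵀ * Q' * Bi) = (Biᵀ * Q' * Bi) * (B * Qi * Bᵀ * Zᵀ * (Biᵀ * Q' * Bi)) := by
            simp only [← mul_assoc] at f1 ⊢
            rw [f1, one_mul]
        _ = _ := by rw [e1, mul_neg]
    rw [e2, neg_add_cancel]
  rw [mem_LBB71, cj_cj h2] at hmem
  exact hmem

end MH
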