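import Pool.Agent.Helper14.GH.SDb
import Pool.Agent.Helper43.GP.FinalN

/-!
Project PF with blocks (MP_b8862a_ag): determinants on the blocks, and tensors fixed by the Mumford-Tate group in the self-dual
case. The lemmas on one block are those of `Helper32/GH/Up.lean`.
-/

set_option linter.unusedSectionVars false

open Matrix Module GH

namespace MH

variable {n : Type*} [Fintype n] [DecidableEq n]

private lemma det32 {k : Type*} [Fintype k] [DecidableEq k] {e g : Matrix n n ℂ} {W : Matrix n k ℂ}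
    {V : Matrix k n ℂ} (h1 : V * W = 1) (h2 : W * V = e) : (g * e + (1 - e)).det = (V * g * W).det := by
  have h3 : g * e + (1 - e) = 1 + ((g - 1) * W) * V := by
    rw [Matrix.mul_assoc, h2, Matrix.sub_mul, Matrix.one_mul]
    abel
  have h4 : 1 + V * ((g - 1) * W) = V * g * W := by
    rw [Matrix.sub_mul, Matrix.one_mul, Matrix.mul_sub, h1, ← Matrix.mul_assoc]
    abel
  rw [h3, Matrix.det_one_add_mul_comm, h4]

private lemma comm_fac32 {k : Type*} [Fintype k] [DecidableEq k] {e A : Matrix n n ℂ} {W : Matrix n k ℂ}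
    {V : Matrix k n ℂ} (h1 : V * W = 1) (h2 : W * V = e) (hA : A * e = e * A) : A * W = W * (V * A * W) := by
  have e1 : e * W = W := by rw [← h2, Matrix.mul_assoc, h1, Matrix.mul_one]
  calc A * W = A * (e * W) := by rw [e1]
    _ = e * A * W := by rw [← Matrix.mul_assoc, hA]
    _ = W * (V * A * W) := by
      rw [← h2]
      simp only [Matrix.mul_assoc]


/-- the square of the determinant on a block with a nondegenerate form -/
private lemma det_sq32 {k : Type*} [Fintype k] [DecidableEq k] {Q' x A : Matrix n n ℂ} {W : Matrix n k ℂ}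
    {N : Matrix k k ℂ} {c : ℂ} (hW : A * W = W * N) (hx : A * x = x * A) (hc : Aᵀ * Q' * A = c • Q')
    {K : Matrix k k ℂ} (hF : K * (Wᵀ * (Q' * x) * W) = 1) : N.det ^ 2 = c ^ Fintype.card k := by
  set F := Wᵀ * (Q' * x) * W with hFF
  have h1 : Nᵀ * F * N = c • F := by
    calc Nᵀ * F * N = (W * N)ᵀ * (Q' * x) * (W * N) := by
          rw [hFF, Matrix.transpose_mul]
          simp only [Matrix.mul_assoc]
      _ = Wᵀ * ((Aᵀ * Q' * A) * x) * W := by
          rw [← hW, Matrix.transpose_mul]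
          simp only [Matrix.mul_assoc]
          rw [← Matrix.mul_assoc x A, ← hx]
          simp only [Matrix.mul_assoc]
      _ = c • F := by
          rw [hc, hFF]
          simp only [Matrix.smul_mul, Matrix.mul_smul]
  have h2 := congrArg Matrix.det h1
  rw [Matrix.det_mul, Matrix.det_mul, Matrix.det_transpose, Matrix.det_smul] at h2
  have h3 : F.det ≠ 0 := by
    intro h0
    have h4 := congrArg Matrix.det hF
    rw [Matrix.det_mul, h0, mul_zero, Matrix.det_one] at h4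
    exact zero_ne_one h4
  have h4 : F.det * (N.det ^ 2 - c ^ Fintype.card k) = 0 := by linear_combination h2
  exact sub_eq_zero.1 ((mul_eq_zero.1 h4).resolve_left h3)

variable {w : ℤ} {Q : Matrix n n ℚ} {S : Finset ℤ} {P : ℤ → Matrix n n ℂ}

private lemma EC_C0_32 {x : Matrix n n ℂ} (hx : x ∈ EC P) : x * C0 S P = C0 S P * x := by
  unfold C0
  rw [Finset.mul_sum, Finset.sum_mul]
  refine Finset.sum_congr rfl fun p _ => ?_
  rw [mul_smul_comm, smul_mul_assoc, EC_P hx]

/-- the form on a block is nondegenerate -/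
private lemma nondeg32 (H : IsHW w Q S P) {e x : Matrix n n ℂ} (he : IsBlk P e) (hx : x ∈ EC P)
    (hF : eᵀ * (toC Q * x) * e ≠ 0) {k : Type*} [Fintype k] [DecidableEq k] {W : Matrix n k ℂ} {V : Matrix k n ℂ}
    (hVW : V * W = 1) (hWV : W * V = e) : ∃ K : Matrix k k ℂ, K * (Wᵀ * (toC Q * x) * W) = 1 := by
  obtain ⟨B, Bi, Qi, h1, h2, h3, h4, hM⟩ := H.exists_basis
  -- `y = e† x e`
  set y := Qi * eᵀ * toC Q * x * e with hy
  have hyE : y ∈ EC P := EC_mul (EC_mul (H.EC_adj h3 h4 he.mem) hx) he.mem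
  have hQy : toC Q * y = eᵀ * (toC Q * x) * e := by
    calc toC Q * y = (toC Q * Qi) * eᵀ * toC Q * x * e := by
          rw [hy]
          simp only [mul_assoc]
      _ = _ := by
          rw [h3, one_mul]
          simp only [mul_assoc]
  have hy0 : y ≠ 0 := by
    intro h0
    rw [h0, mul_zero] at hQy
    exact hF hQy.symm
  have hye : y * e = y := by
    rw [hy, mul_assoc _ e e, he.idem]
  -- the adjoint of `y`
  obtain ⟨κ, hκ⟩ := IsHW.exists_cc
  have hyc : yᴴ = (y.map κ)ᵀ := by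
    ext i j
    simp [hκ]
  set T := (Bi * Biᴴ) * yᴴ * Mw w Q S P with hT
  have hTE : T ∈ EC P := by
    have e1 : Bi * Biᴴ = (Complex.I ^ w)⁻¹ • (C0 S P * Qi) := by
      calc Bi * Biᴴ = (Bi * Biᴴ) * toC Q * Qi := by rw [mul_assoc, h3, mul_one]
        _ = _ := by rw [H.Mi_Q h1 h2 hM, smul_mul_assoc]
    have e2 : Qi * yᴴ * toC Q ∈ EC P := by
      rw [hyc]
      exact H.EC_adj h3 h4 (EC_aut κ hyE)
    have e3 : T = Qi * yᴴ * toC Q := by
      rw [hT, e1]
      unfold Mw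
      rw [mul_smul_comm, smul_mul_assoc, smul_mul_assoc, smul_smul, mul_inv_cancel₀ (I_zpow_ne w), one_smul]
      calc C0 S P * Qi * yᴴ * (toC Q * C0 S P) = C0 S P * ((Qi * yᴴ * toC Q) * C0 S P) := by
            simp only [mul_assoc]
        _ = C0 S P * (C0 S P * (Qi * yᴴ * toC Q)) := by rw [EC_C0_32 e2]
        _ = _ := by rw [← mul_assoc, H.C0_mul, one_mul]
    rw [e3]
    exact e2
  have htr : (y * T).trace ≠ 0 := IsHW.st_pos h1 h2 hM hy0
  obtain ⟨l, hl⟩ := he.min (T * y) (EC_mul hTE hyE)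
  have hl' : e * T * y = l • e := by
    rw [← hl]
    calc e * T * y = e * T * (y * e) := by rw [hye]
      _ = _ := by simp only [mul_assoc]
  have hl0 : l ≠ 0 := by
    rintro rfl
    rw [zero_smul] at hl'
    apply htr
    calc (y * T).trace = (y * e * T).trace := by rw [hye]
      _ = (y * (e * T)).trace := by rw [mul_assoc]
      _ = ((e * T) * y).trace := Matrix.trace_mul_comm _ _
      _ = 0 := by rw [hl', Matrix.trace_zero]
  -- the inverse
  refine ⟨l⁻¹ • (V * (e * T) * Qi * Vᵀ), ?_⟩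
  have hWe : Wᵀ * eᵀ = Wᵀ := by
    rw [← Matrix.transpose_mul, ← hWV, Matrix.mul_assoc, hVW, Matrix.mul_one]
  have heW : e * W = W := by rw [← hWV, Matrix.mul_assoc, hVW, Matrix.mul_one]
  have e1 : Wᵀ * (toC Q * x) * W = Wᵀ * (toC Q * y) * W := by
    rw [hQy]
    calc Wᵀ * (toC Q * x) * W = (Wᵀ * eᵀ) * (toC Q * x) * (e * W) := by rw [hWe, heW]
      _ = _ := by simp only [Matrix.mul_assoc]
  have e2 : Vᵀ * Wᵀ * (toC Q * y) = toC Q * y := by
    rw [← Matrix.transpose_mul, hWV, hQy]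
    calc eᵀ * (eᵀ * (toC Q * x) * e) = (eᵀ * eᵀ) * (toC Q * x) * e := by simp only [mul_assoc]
      _ = _ := by rw [← Matrix.transpose_mul, he.idem]
  rw [e1, Matrix.smul_mul]
  calc l⁻¹ • (V * (e * T) * Qi * Vᵀ * (Wᵀ * (toC Q * y) * W))
      = l⁻¹ • (V * (e * T) * Qi * (Vᵀ * Wᵀ * (toC Q * y)) * W) := by simp only [Matrix.mul_assoc]
    _ = l⁻¹ • (V * (e * T) * (Qi * toC Q) * y * W) := by
        rw [e2]
        simp only [Matrix.mul_assoc]
    _ = l⁻¹ • (V * (e * T * y) * W) := by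
        rw [h4, Matrix.mul_one]
        simp only [Matrix.mul_assoc]
    _ = l⁻¹ • (l • (V * (e * W))) := by
        rw [hl', Matrix.mul_smul, Matrix.smul_mul, Matrix.mul_assoc]
    _ = 1 := by rw [heW, hVW, smul_smul, inv_mul_cancel₀ hl0, one_smul]

/-- the square of the determinant of a similitude on a block -/
theorem det_blk14 (H : IsHW w Q S P) (hSD : SelfDual Q P) {e : Matrix n n ℂ} (he : IsBlk P e)
    {A : Matrix n n ℂ} (hA : ∀ x ∈ EC P, A * x = x * A) {c : ℂ} (hc : Aᵀ * toC Q * A = c • toC Q) :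
    (A * e + (1 - e)).det ^ 2 = c ^ e.rank := by
  obtain ⟨W, V, h1, h2⟩ := exists_fac14 he.idem
  obtain ⟨x, hx, hF⟩ := hSD e he
  obtain ⟨K, hK⟩ := nondeg32 H he hx hF h1 h2
  have h3 := det_sq32 (comm_fac32 h1 h2 (hA e he.mem)) (hA x hx) hc hK
  rw [det32 h1 h2, h3, Fintype.card_fin]

/-- equivalent blocks have the same determinants -/
theorem det_equiv14 {e f : Matrix n n ℂ} (he : IsBlk P e) (hf : IsBlk P f) (h0 : e * f * e ≠ 0) :
    e.rank = f.rank ∧ ∀ g : Matrix n n ℂ, (∀ x ∈ EC P, g * x = x * g) →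
      (g * e + (1 - e)).det = (g * f + (1 - f)).det := by
  obtain ⟨c, hc⟩ := he.min f hf.mem
  obtain ⟨d, hd⟩ := hf.min e he.mem
  have hc0 : c ≠ 0 := by
    rintro rfl
    rw [zero_smul] at hc
    exact h0 hc
  have hcd : c = d := by
    have h1 : c • (e * f) = d • (e * f) := by
      calc c • (e * f) = (e * f * e) * f := by rw [hc, smul_mul_assoc]
        _ = e * (f * e * f) := by simp only [mul_assoc]
        _ = d • (e * f) := by rw [hd, mul_smul_comm]
    have h2 : (c - d) • (e * f) = 0 := by rw [sub_smul, h1, sub_self]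
    rcases smul_eq_zero.1 h2 with h3 | h3
    · exact sub_eq_zero.1 h3
    · exfalso
      apply h0
      rw [h3, zero_mul]
  obtain ⟨r, W, V, h1, h2⟩ := exists_coord48 he.idem
  obtain ⟨r', W', V', h1', h2'⟩ := exists_coord48 hf.idem
  have hre : e.rank = r := _root_.MH.blk_rank he h1 h2
  have hrf : f.rank = r' := _root_.MH.blk_rank hf h1' h2'
  have hVe : V * e = V := by rw [← h2, ← Matrix.mul_assoc, h1, Matrix.one_mul]
  have heW : e * W = W := by rw [← h2, Matrix.mul_assoc, h1, Matrix.mul_one]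
  have hVf : V' * f = V' := by rw [← h2', ← Matrix.mul_assoc, h1', Matrix.one_mul]
  have hfW : f * W' = W' := by rw [← h2', Matrix.mul_assoc, h1', Matrix.mul_one]
  have k1 : (V * W') * (V' * W) = c • 1 := by
    calc (V * W') * (V' * W) = V * (W' * V') * W := by simp only [Matrix.mul_assoc]
      _ = (V * e) * f * (e * W) := by rw [h2', hVe, heW]
      _ = V * (e * f * e) * W := by simp only [Matrix.mul_assoc]
      _ = c • 1 := by rw [hc, Matrix.mul_smul, Matrix.smul_mul, hVe, h1]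
  have k2 : (V' * W) * (V * W') = c • 1 := by
    calc (V' * W) * (V * W') = V' * (W * V) * W' := by simp only [Matrix.mul_assoc]
      _ = (V' * f) * e * (f * W') := by rw [h2, hVf, hfW]
      _ = V' * (f * e * f) * W' := by simp only [Matrix.mul_assoc]
      _ = c • 1 := by rw [hd, Matrix.mul_smul, Matrix.smul_mul, hVf, h1', hcd]
  have hrk : r = r' := by
    have h3 := Matrix.trace_mul_comm (V * W') (V' * W)
    rw [k1, k2, Matrix.trace_smul, Matrix.trace_smul, Matrix.trace_one, Matrix.trace_one, Fintype.card_fin,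
      Fintype.card_fin, smul_eq_mul, smul_eq_mul] at h3
    have h4 := mul_left_cancel₀ hc0 h3
    exact_mod_cast h4
  subst hrk
  refine ⟨hre.trans hrf.symm, fun g hg => ?_⟩
  rw [det32 h1 h2, det32 h1' h2']
  have e2 : (V * W') * (V' * g * W') * (V' * W) = c • (V * g * W) := by
    calc (V * W') * (V' * g * W') * (V' * W) = V * (W' * V') * g * (W' * V') * W := by
          simp only [Matrix.mul_assoc]
      _ = V * f * (g * f) * W := by rw [h2']; simp only [Matrix.mul_assoc]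
      _ = V * (f * f) * g * W := by rw [hg f hf.mem]; simp only [Matrix.mul_assoc]
      _ = V * (f * g) * W := by rw [hf.idem]; simp only [Matrix.mul_assoc]
      _ = (V * e) * (g * f) * (e * W) := by rw [hVe, heW, hg f hf.mem]
      _ = V * (e * g) * f * e * W := by simp only [Matrix.mul_assoc]
      _ = V * g * (e * f * e) * W := by rw [← hg e he.mem]; simp only [Matrix.mul_assoc]
      _ = c • (V * g * W) := by
          rw [hc, Matrix.mul_smul, Matrix.smul_mul, Matrix.mul_assoc (V * g), heW]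
  have e3 := congrArg Matrix.det e2
  have e4 := congrArg Matrix.det k1
  rw [Matrix.det_mul, Matrix.det_mul, Matrix.det_smul, Fintype.card_fin] at e3
  rw [Matrix.det_mul, Matrix.det_smul, Matrix.det_one, mul_one, Fintype.card_fin] at e4
  have e5 : c ^ r * (V * g * W).det = c ^ r * (V' * g * W').det := by
    rw [← e3, ← e4]
    ring
  exact mul_left_cancel₀ (pow_ne_zero _ hc0) e5

/-- a subgroup is of finite index if its cosets are separated by a function with finitely many values -/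
theorem index_ne_zero14 {G : Type*} [Group G] (K : Subgroup G) {α : Type*} [Finite α] (f : G → α)
    (h : ∀ a b, f a = f b → a⁻¹ * b ∈ K) : K.index ≠ 0 := by
  have hfin : Finite (G ⧸ K) := by
    refine Finite.of_injective (fun q : G ⧸ K => f q.out) fun q q' hq => ?_
    have h1 := h _ _ hq
    rw [← QuotientGroup.out_eq' q, ← QuotientGroup.out_eq' q']
    exact QuotientGroup.eq.2 h1
  rw [Subgroup.index]
  exact Nat.card_pos.ne'

/-- **The tensors fixed by the Mumford-Tate group** are fixed by a subgroup of finite index, in the self-dual case. -/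
theorem tate_ge14 (H : IsHW w Q S P) (hSD : SelfDual Q P)
    (hMT : ∀ g : GL n ℂ, InGw w Q P (g : Matrix n n ℂ) → g ∈ MT S P) {Γ : Subgroup (GL n ℂ)}
    (hsim : ∀ g ∈ Γ, ∃ z : ℂ, (w = 0 → z = 1) ∧ (g : Matrix n n ℂ)ᵀ * toC Q * (g : Matrix n n ℂ) = z ^ 2 • toC Q)
    (hcomm : ∃ Γ' : Subgroup (GL n ℂ), Γ' ≤ Γ ∧ Γ'.relIndex Γ ≠ 0 ∧ ∀ g ∈ Γ', ∀ x ∈ EC P,
      (g : Matrix n n ℂ) * x = x * (g : Matrix n n ℂ))
    {a b : ℕ} {t : (Fin a ⊕ Fin b → n) → ℂ} (ht : MTfix S P a b t) : IsTateTensor Γ a b t := by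
  classical
  obtain ⟨Γ', a1, a2, a3⟩ := hcomm
  refine ⟨Γ' ⊓ MT S P, inf_le_left.trans a1, ?_, fun g hg => ht g hg.2⟩
  rcases isEmpty_or_nonempty n with hn | hn
  · have h1 : Γ' ⊓ MT S P = Γ' := by
      refine inf_eq_left.2 fun g _ => ?_
      have e1 : g = 1 := by
        ext i
        exact hn.elim i
      rw [e1]
      exact (MT S P).one_mem
    rw [h1]
    exact a2
  have hgi : ∀ g : GL n ℂ, (g : Matrix n n ℂ) * ((g⁻¹ : GL n ℂ) : Matrix n n ℂ) = 1 := by
    intro g
    rw [← Units.val_mul, mul_inv_cancel, Units.val_one]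
  have hgi' : ∀ g : GL n ℂ, ((g⁻¹ : GL n ℂ) : Matrix n n ℂ) * (g : Matrix n n ℂ) = 1 := by
    intro g
    rw [← Units.val_mul, inv_mul_cancel, Units.val_one]
  rw [← Subgroup.relIndex_mul_relIndex (Γ' ⊓ MT S P) Γ' Γ inf_le_left a1]
  refine mul_ne_zero ?_ a2
  obtain ⟨ι, _, e, e1, -, e3⟩ := H.exists_blks43
  choose z hz0 hzQ using fun g : Γ' => hsim g (a1 g.2)
  have hzne : ∀ g : Γ', z g ≠ 0 := by
    intro g h0
    have h1 := hzQ g
    rw [h0, zero_pow two_ne_zero, zero_smul] at h1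
    have h3 := congrArg Matrix.det h1
    rw [Matrix.det_mul, Matrix.det_mul, Matrix.det_transpose, Matrix.det_zero] at h3
    have h4 : ((g : GL n ℂ) : Matrix n n ℂ).det ≠ 0 := by
      intro h0
      have h5 := congrArg Matrix.det (hgi g)
      rw [Matrix.det_mul, h0, zero_mul, Matrix.det_one] at h5
      exact zero_ne_one h5
    exact mul_ne_zero (mul_ne_zero h4 H.detQ) h4 h3
  have hdet : ∀ (g : Γ') (i : ι), (((g : GL n ℂ) : Matrix n n ℂ) * e i + (1 - e i)).det = z g ^ (e i).rank ∨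
      (((g : GL n ℂ) : Matrix n n ℂ) * e i + (1 - e i)).det = -z g ^ (e i).rank := by
    intro g i
    have h1 := det_blk14 H hSD (e1 i) (a3 g g.2) (hzQ g)
    rw [← pow_mul, mul_comm, pow_mul] at h1
    exact sq_eq_sq_iff_eq_or_eq_neg.1 h1
  unfold Subgroup.relIndex
  refine index_ne_zero14 _ (fun (g : Γ') (i : ι) =>
    decide ((((g : GL n ℂ) : Matrix n n ℂ) * e i + (1 - e i)).det = z g ^ (e i).rank)) ?_
  intro g h hgh
  rw [Subgroup.mem_subgroupOf]
  refine ⟨(g⁻¹ * h).2, hMT _ ?_⟩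
  have hval : (((g⁻¹ * h : Γ') : GL n ℂ) : Matrix n n ℂ) =
      (((g : GL n ℂ)⁻¹ : GL n ℂ) : Matrix n n ℂ) * ((h : GL n ℂ) : Matrix n n ℂ) := by
    rw [Subgroup.coe_mul, Subgroup.coe_inv, Units.val_mul]
  have hc := a3 _ (g⁻¹ * h).2
  refine ⟨hc, (z g)⁻¹ * z h, fun hw => by rw [hz0 g hw, hz0 h hw, inv_one, one_mul], ?_, ?_⟩
  · rw [hval, Matrix.transpose_mul]
    have h1 : ((((g : GL n ℂ)⁻¹ : GL n ℂ) : Matrix n n ℂ))ᵀ * toC Q * (((g : GL n ℂ)⁻¹ : GL n ℂ) : Matrix n n ℂ) =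
        ((z g)⁻¹) ^ 2 • toC Q := by
      have h2 : toC Q = (z g) ^ 2 • (((((g : GL n ℂ)⁻¹ : GL n ℂ) : Matrix n n ℂ))ᵀ * toC Q *
          (((g : GL n ℂ)⁻¹ : GL n ℂ) : Matrix n n ℂ)) := by
        have h3 : ((((g : GL n ℂ)⁻¹ : GL n ℂ) : Matrix n n ℂ))ᵀ * (((g : GL n ℂ) : Matrix n n ℂ))ᵀ = 1 := by
          rw [← Matrix.transpose_mul, hgi, Matrix.transpose_one]
        calc toC Q = (((((g : GL n ℂ)⁻¹ : GL n ℂ) : Matrix n n ℂ))ᵀ * (((g : GL n ℂ) : Matrix n n ℂ))ᵀ) * toC Q *
              (((g : GL n ℂ) : Matrix n n ℂ) * (((g : GL n ℂ)⁻¹ : GL n ℂ) : Matrix n n ℂ)) := by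
                rw [h3, hgi, one_mul, mul_one]
          _ = ((((g : GL n ℂ)⁻¹ : GL n ℂ) : Matrix n n ℂ))ᵀ * ((((g : GL n ℂ) : Matrix n n ℂ))ᵀ * toC Q *
              ((g : GL n ℂ) : Matrix n n ℂ)) * (((g : GL n ℂ)⁻¹ : GL n ℂ) : Matrix n n ℂ) := by
                simp only [mul_assoc]
          _ = _ := by rw [hzQ g, mul_smul_comm, smul_mul_assoc]
      conv_rhs => rw [h2]
      rw [smul_smul, ← mul_pow, inv_mul_cancel₀ (hzne g), one_pow, one_smul]
    calc (((h : GL n ℂ) : Matrix n n ℂ))ᵀ * ((((g : GL n ℂ)⁻¹ : GL n ℂ) : Matrix n n ℂ))ᵀ * toC Q *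
          ((((g : GL n ℂ)⁻¹ : GL n ℂ) : Matrix n n ℂ) * ((h : GL n ℂ) : Matrix n n ℂ))
        = (((h : GL n ℂ) : Matrix n n ℂ))ᵀ * (((((g : GL n ℂ)⁻¹ : GL n ℂ) : Matrix n n ℂ))ᵀ * toC Q *
          (((g : GL n ℂ)⁻¹ : GL n ℂ) : Matrix n n ℂ)) * ((h : GL n ℂ) : Matrix n n ℂ) := by simp only [mul_assoc]
      _ = _ := by
          rw [h1, mul_smul_comm, smul_mul_assoc, hzQ h, smul_smul, mul_pow]
  · intro f hf
    -- a representative of the block
    obtain ⟨i, hi⟩ : ∃ i, f * e i * f ≠ 0 := by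
      by_contra hcon
      push Not at hcon
      apply hf.ne
      calc f = f * (∑ i, e i) * f := by rw [e3, mul_one, hf.idem]
        _ = 0 := by
          rw [Finset.mul_sum, Finset.sum_mul]
          exact Finset.sum_eq_zero fun i _ => hcon i
    obtain ⟨hrk, hdt⟩ := det_equiv14 hf (e1 i) hi
    rw [hdt _ hc, hrk]
    have hm : ∀ k : Γ', (((k : GL n ℂ) : Matrix n n ℂ) * e i + (1 - e i)).det ≠ 0 := by
      intro k h0
      rcases hdet k i with h1 | h1
      · rw [h0] at h1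
        exact pow_ne_zero _ (hzne k) h1.symm
      · rw [h0] at h1
        exact pow_ne_zero _ (hzne k) (neg_eq_zero.1 h1.symm)
    have h1 : (((g⁻¹ * h : Γ') : GL n ℂ) : Matrix n n ℂ) = (((g⁻¹ : Γ') : GL n ℂ) : Matrix n n ℂ) *
        ((h : GL n ℂ) : Matrix n n ℂ) := by
      rw [Subgroup.coe_mul, Units.val_mul]
    have hinv : (((g⁻¹ : Γ') : GL n ℂ) : Matrix n n ℂ) * ((g : GL n ℂ) : Matrix n n ℂ) = 1 := by
      rw [Subgroup.coe_inv]
      exact hgi' g
    have hprod : ((((g⁻¹ : Γ') : GL n ℂ) : Matrix n n ℂ) * e i + (1 - e i)).det *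
        (((g : GL n ℂ) : Matrix n n ℂ) * e i + (1 - e i)).det = 1 := by
      rw [← det_blk_mul (e1 i).idem (a3 g g.2 _ (e1 i).mem), hinv, one_mul, add_sub_cancel, Matrix.det_one]
    rw [h1, det_blk_mul (e1 i).idem (a3 h h.2 _ (e1 i).mem)]
    have h2 : ((((g⁻¹ : Γ') : GL n ℂ) : Matrix n n ℂ) * e i + (1 - e i)).det =
        ((((g : GL n ℂ) : Matrix n n ℂ) * e i + (1 - e i)).det)⁻¹ := eq_inv_of_mul_eq_one_left hprod
    rw [h2]
    have h3 := congrFun hgh i
    simp only [decide_eq_decide] at h3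
    have hpw : ((z g)⁻¹ * z h) ^ (e i).rank = (z g ^ (e i).rank)⁻¹ * z h ^ (e i).rank := by
      rw [mul_pow, inv_pow]
    rw [hpw]
    rcases hdet g i with h4 | h4
    · rw [h4, h3.1 h4]
    · by_cases h5 : (((g : GL n ℂ) : Matrix n n ℂ) * e i + (1 - e i)).det = z g ^ (e i).rank
      · rw [h5, h3.1 h5]
      · have h6 : ¬ (((h : GL n ℂ) : Matrix n n ℂ) * e i + (1 - e i)).det = z h ^ (e i).rank := fun h7 => h5 (h3.2 h7)
        rw [h4, (hdet h i).resolve_left h6, inv_neg, neg_mul_neg]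

namespace IsHW

variable (H : IsHW w Q S P)
include H

/-- **The Mumford-Tate group in the self-dual case**, if all the blocks are of full type. -/
theorem MT_iff_self14 (hty : ∀ f, IsBlk P f → 2 ≤ f.rank → TyBN Q S P f) (hSD : SelfDual Q P) (g : GL n ℂ) :
    g ∈ MT S P ↔ InGw w Q P (g : Matrix n n ℂ) := by
  refine ⟨fun hg => MT_InGw H hSD hg, ?_⟩
  rintro ⟨hc, z, hz0, hzQ, hzd⟩
  obtain ⟨B, Bi, Qi, h1, h2, q1, q2, hM⟩ := H.exists_basis
  rcases isEmpty_or_nonempty n with hn | hn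
  · have e1 : g = 1 := by
      ext i
      exact hn.elim i
    rw [e1]
    exact (MT S P).one_mem
  have hgi : (g : Matrix n n ℂ) * ((g⁻¹ : GL n ℂ) : Matrix n n ℂ) = 1 := by
    rw [← Units.val_mul, mul_inv_cancel, Units.val_one]
  have hz : z ≠ 0 := by
    rintro rfl
    rw [zero_pow (by norm_num), zero_smul] at hzQ
    have h3 := congrArg Matrix.det hzQ
    rw [Matrix.det_mul, Matrix.det_mul, Matrix.det_transpose, Matrix.det_zero] at h3
    have h4 : (g : Matrix n n ℂ).det ≠ 0 := by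
      intro h0
      have h5 := congrArg Matrix.det hgi
      rw [Matrix.det_mul, h0, zero_mul, Matrix.det_one] at h5
      exact zero_ne_one h5
    exact mul_ne_zero (mul_ne_zero h4 H.detQ) h4 h3
  -- the scalar and the unimodular part
  let s : GL n ℂ := ⟨z • (1 : Matrix n n ℂ), z⁻¹ • (1 : Matrix n n ℂ), by
      rw [smul_mul_smul_comm, mul_one, mul_inv_cancel₀ hz, one_smul], by
      rw [smul_mul_smul_comm, mul_one, inv_mul_cancel₀ hz, one_smul]⟩
  have hs : (s : Matrix n n ℂ) = z • (1 : Matrix n n ℂ) := rfl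
  have hsi : ((s⁻¹ : GL n ℂ) : Matrix n n ℂ) = z⁻¹ • (1 : Matrix n n ℂ) := rfl
  have hsm : s ∈ MT S P := by
    by_cases hw0 : w = 0
    · have e1 : s = 1 := by
        apply Units.ext
        rw [hs, hz0 hw0, one_smul, Units.val_one]
      rw [e1]
      exact (MT S P).one_mem
    · exact H.scalar_MT hw0 hs
  have hd : s⁻¹ * g ∈ MT S P := by
    apply H.InD_MT43 hty
    have e0 : ((s⁻¹ * g : GL n ℂ) : Matrix n n ℂ) = z⁻¹ • (g : Matrix n n ℂ) := by
      rw [Units.val_mul, hsi, smul_mul_assoc, one_mul]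
    rw [e0]
    refine ⟨fun T hT => ?_, ?_, fun e he => ?_⟩
    · rw [smul_mul_assoc, mul_smul_comm, hc T (H.SI_self h1 h2 hM hSD hT)]
    · rw [Matrix.transpose_smul, smul_mul_assoc, smul_mul_assoc, mul_smul_comm, hzQ, smul_smul, smul_smul]
      have e1 : z⁻¹ * z⁻¹ * z ^ 2 = 1 := by field_simp
      rw [e1, one_smul]
    · have e1 : (z⁻¹ • (g : Matrix n n ℂ)) = (z⁻¹ • (1 : Matrix n n ℂ)) * (g : Matrix n n ℂ) := by
        rw [smul_mul_assoc, one_mul]
      rw [e1, det_blk_mul he.idem (hc e he.mem), hzd e he, smul_mul_assoc, one_mul, ← smul_one_add_det he.idem]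
      rw [inv_pow, inv_mul_cancel₀ (pow_ne_zero _ hz)]
  have e2 : g = s * (s⁻¹ * g) := by rw [mul_inv_cancel_left]
  rw [e2]
  exact (MT S P).mul_mem hsm hd

end IsHW

end MH
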