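import Pool.Agent.Helper14.PP.Cliff
import Pool.Agent.Helper14.PP.DetB

/-!
Project PF with blocks (MP_b8862a_ag): semisimplicity and the commutants of the subgroups of finite index give the data of the
block theorems, in the self-dual case.
-/

set_option linter.unusedSectionVars false

open Matrix Module GH

namespace MH

variable {n : Type*} [Fintype n] [DecidableEq n]
variable {w : ℤ} {Q : Matrix n n ℚ} {S : Finset ℤ} {P : ℤ → Matrix n n ℂ}

/-- a subspace stable under everything that commutes with the endomorphisms is the range of an idempotent endomorphism -/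
theorem exists_idem14 (H : IsHW w Q S P) {W : Submodule ℂ (n → ℂ)}
    (hW : ∀ X : Matrix n n ℂ, (∀ x ∈ EC P, X * x = x * X) → ∀ v ∈ W, X *ᵥ v ∈ W) :
    ∃ p ∈ EC P, p * p = p ∧ ∀ v, v ∈ W ↔ p *ᵥ v = v := by
  obtain ⟨B, Bi, Qi, h1, h2, -, -, hM⟩ := H.exists_basis
  have hLW : ∀ X ∈ LH Q S P, ∀ v ∈ W, X *ᵥ v ∈ W := fun X hX => hW X fun x hx => H.LH_EC hX hx
  obtain ⟨T, t1, t2, t3, t4⟩ := proj (W.comap (Matrix.toLin' Bi))
  have hmem : ∀ v, v ∈ W.comap (Matrix.toLin' Bi) ↔ Bi *ᵥ v ∈ W := by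
    intro v
    rw [Submodule.mem_comap, Matrix.toLin'_apply]
  have hst : ∀ X ∈ LH Q S P, ∀ v ∈ W.comap (Matrix.toLin' Bi), cj B Bi X *ᵥ v ∈ W.comap (Matrix.toLin' Bi) := by
    intro X hX v hv
    rw [hmem] at hv ⊢
    have e1 : Bi *ᵥ (cj B Bi X *ᵥ v) = X *ᵥ (Bi *ᵥ v) := by
      rw [Matrix.mulVec_mulVec, Matrix.mulVec_mulVec]
      congr 1
      unfold cj
      calc Bi * (B * X * Bi) = (Bi * B) * X * Bi := by simp only [mul_assoc]
        _ = X * Bi := by rw [h2, one_mul]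
    rw [e1]
    exact hLW X hX _ hv
  refine ⟨cj Bi B T, ?_, by rw [cj_mul h1, t1], ?_⟩
  · refine H.EC_of_LH fun X hX => ?_
    have e1 := t4 (cj B Bi X) (hst X hX) (by
      have e2 : (cj B Bi X)ᴴ = cj B Bi (Bi * (B * X * Bi)ᴴ * B) := by
        unfold cj
        calc (B * X * Bi)ᴴ = (B * Bi) * (B * X * Bi)ᴴ * (B * Bi) := by rw [h1, one_mul, mul_one]
          _ = _ := by simp only [mul_assoc]
      rw [e2]
      exact hst _ (H.LH_st h1 h2 hM hX))
    have e2 := congrArg (cj Bi B) e1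
    rw [← cj_mul h1, ← cj_mul h1, cj_cj h2] at e2
    exact e2
  · intro v
    have e1 : v ∈ W ↔ B *ᵥ v ∈ W.comap (Matrix.toLin' Bi) := by
      rw [hmem, Matrix.mulVec_mulVec, h2, Matrix.one_mulVec]
    rw [e1, t3]
    have e2 : cj Bi B T *ᵥ v = Bi *ᵥ (T *ᵥ (B *ᵥ v)) := by
      rw [Matrix.mulVec_mulVec, Matrix.mulVec_mulVec]
      congr 1
    rw [e2]
    constructor
    · intro h
      rw [h, Matrix.mulVec_mulVec, h2, Matrix.one_mulVec]
    · intro h
      have h3 := congrArg (fun u => B *ᵥ u) h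
      simp only [Matrix.mulVec_mulVec] at h3
      rw [← Matrix.mul_assoc, h1, Matrix.one_mul] at h3
      rw [Matrix.mulVec_mulVec]
      exact h3

theorem spG_stb {Γ : Subgroup (GL n ℂ)} {W : Submodule ℂ (n → ℂ)}
    (hW : ∀ g ∈ Γ, ∀ v ∈ W, (g : Matrix n n ℂ) *ᵥ v ∈ W) {x : Matrix n n ℂ} (hx : x ∈ spG Γ) :
    ∀ v ∈ W, x *ᵥ v ∈ W := by
  intro v hv
  unfold spG at hx
  induction hx using Submodule.span_induction with
  | mem x hx =>
    obtain ⟨g, hg, rfl⟩ := hx
    exact hW g hg v hv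
  | zero => rw [Matrix.zero_mulVec]; exact W.zero_mem
  | add a b _ _ ha hb => rw [Matrix.add_mulVec]; exact W.add_mem ha hb
  | smul c a _ ha => rw [Matrix.smul_mulVec]; exact W.smul_mem c ha

/-- a matrix is determined by its products with vectors -/
theorem ext_mulVec14 {m' : Type*} {X Y : Matrix m' n ℂ} (h : ∀ v, X *ᵥ v = Y *ᵥ v) : X = Y := by
  classical
  ext i j
  have h1 := congrFun (h (Pi.single j 1)) i
  simpa using h1

/-- an idempotent endomorphism below a block is zero or the block -/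
theorem IsBlk.scal14 {e : Matrix n n ℂ} (he : IsBlk P e) {y : Matrix n n ℂ} (hy : y ∈ EC P) (h1 : e * y * e = y)
    (h2 : y * y = y) : y = 0 ∨ y = e := by
  obtain ⟨c, hc⟩ := he.min y hy
  rw [h1] at hc
  have h3 : (c * c) • e = c • e := by
    have h4 := h2
    rw [hc, smul_mul_smul_comm, he.idem] at h4
    exact h4
  have h5 : (c * c - c) • e = 0 := by rw [sub_smul, h3, sub_self]
  have h6 := (smul_eq_zero.1 h5).resolve_right he.ne
  have h7 : c * (c - 1) = 0 := by linear_combination h6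
  rcases mul_eq_zero.1 h7 with h8 | h8
  · left
    rw [hc, h8, zero_smul]
  · right
    rw [hc, sub_eq_zero.1 h8, one_smul]

/-- the character of a semi-invariant has finite order in the self-dual case -/
theorem semi_ord14 (H : IsHW w Q S P) (hSD : SelfDual Q P) {Γ : Subgroup (GL n ℂ)}
    (hsim : ∀ g ∈ Γ, ∃ z : ℂ, (g : Matrix n n ℂ)ᵀ * toC Q * (g : Matrix n n ℂ) = z ^ 2 • toC Q)
    (hcomm : ∀ g ∈ Γ, ∀ x ∈ EC P, (g : Matrix n n ℂ) * x = x * (g : Matrix n n ℂ))
    (hspan : ∀ X : Matrix n n ℂ, (∀ x ∈ EC P, X * x = x * X) → X ∈ spG Γ)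
    {T : Matrix n n ℂ} (hT0 : T ≠ 0)
    (hT : ∀ g ∈ Γ, ∃ c : ℂ, (g : Matrix n n ℂ) * T = c • (T * (g : Matrix n n ℂ))) :
    ∃ r : ℕ, 1 ≤ r ∧ ∀ g ∈ Γ, ∀ c : ℂ, (g : Matrix n n ℂ) * T = c • (T * (g : Matrix n n ℂ)) → c ^ (2 * r) = 1 := by
  classical
  obtain ⟨ι, _, e, e1, -, e3⟩ := H.exists_blks43
  have hgi : ∀ g : GL n ℂ, (g : Matrix n n ℂ) * ((g⁻¹ : GL n ℂ) : Matrix n n ℂ) = 1 := by
    intro g
    rw [← Units.val_mul, mul_inv_cancel, Units.val_one]
  obtain ⟨i, j, hij⟩ : ∃ i j, e i * T * e j ≠ 0 := by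
    by_contra hcon
    push Not at hcon
    apply hT0
    calc T = (∑ i, e i) * T * (∑ j, e j) := by rw [e3, one_mul, mul_one]
      _ = ∑ i, ∑ j, e i * T * e j := by
        rw [Finset.sum_mul, Finset.sum_mul]
        refine Finset.sum_congr rfl fun i _ => ?_
        rw [Finset.mul_sum]
      _ = 0 := Finset.sum_eq_zero fun i _ => Finset.sum_eq_zero fun j _ => hcon i j
  obtain ⟨T', hT'⟩ : ∃ T', T' = e i * T * e j := ⟨_, rfl⟩
  rw [← hT'] at hij
  have hTi : e i * T' = T' := by rw [hT', ← mul_assoc, ← mul_assoc, (e1 i).idem]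
  have hTj : T' * e j = T' := by rw [hT', mul_assoc, (e1 j).idem]
  have hTc : ∀ g ∈ Γ, ∀ c : ℂ, (g : Matrix n n ℂ) * T = c • (T * (g : Matrix n n ℂ)) →
      (g : Matrix n n ℂ) * T' = c • (T' * (g : Matrix n n ℂ)) := by
    intro g hg c hc
    rw [hT']
    calc (g : Matrix n n ℂ) * (e i * T * e j) = e i * ((g : Matrix n n ℂ) * T) * e j := by
          rw [← mul_assoc, ← mul_assoc, hcomm g hg _ (e1 i).mem]
          simp only [mul_assoc]
      _ = c • (e i * T * ((g : Matrix n n ℂ) * e j)) := by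
          rw [hc, mul_smul_comm, smul_mul_assoc]
          simp only [mul_assoc]
      _ = c • (e i * T * e j * (g : Matrix n n ℂ)) := by
          rw [hcomm g hg _ (e1 j).mem]
          simp only [mul_assoc]
  have hc0 : ∀ g ∈ Γ, ∀ c : ℂ, (g : Matrix n n ℂ) * T' = c • (T' * (g : Matrix n n ℂ)) → c ≠ 0 := by
    rintro g hg c hc rfl
    rw [zero_smul] at hc
    apply hij
    have h1 : ((g⁻¹ : GL n ℂ) : Matrix n n ℂ) * (g : Matrix n n ℂ) = 1 := by
      rw [← Units.val_mul, inv_mul_cancel, Units.val_one]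
    calc T' = ((g⁻¹ : GL n ℂ) : Matrix n n ℂ) * ((g : Matrix n n ℂ) * T') := by rw [← mul_assoc, h1, one_mul]
      _ = 0 := by rw [hc, mul_zero]
  -- the kernel and the range are stable under what commutes with the endomorphisms
  have hst : ∀ W : Submodule ℂ (n → ℂ), (∀ g ∈ Γ, ∀ v ∈ W, (g : Matrix n n ℂ) *ᵥ v ∈ W) →
      ∃ p ∈ EC P, p * p = p ∧ ∀ v, v ∈ W ↔ p *ᵥ v = v := by
    intro W hW
    exact exists_idem14 H fun X hX => spG_stb hW (hspan X hX)
  -- the kernel
  have hker : ∀ v, T' *ᵥ v = 0 → e j *ᵥ v = 0 := by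
    obtain ⟨p, hp, hpp, hpv⟩ := hst (LinearMap.ker (Matrix.toLin' T')) (by
      intro g hg v hv
      rw [LinearMap.mem_ker, Matrix.toLin'_apply] at hv ⊢
      obtain ⟨c, hc⟩ := hT g hg
      have hc' := hTc g hg c hc
      have h1 : c • (T' *ᵥ ((g : Matrix n n ℂ) *ᵥ v)) = 0 := by
        rw [Matrix.mulVec_mulVec, ← Matrix.smul_mulVec, ← hc', ← Matrix.mulVec_mulVec, hv, Matrix.mulVec_zero]
      exact (smul_eq_zero.1 h1).resolve_left (hc0 g hg c hc'))
    have hpv' : ∀ v, T' *ᵥ v = 0 ↔ p *ᵥ v = v := by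
      intro v
      rw [← hpv, LinearMap.mem_ker, Matrix.toLin'_apply]
    have k1 : p * (1 - e j) = 1 - e j := by
      apply ext_mulVec14
      intro v
      rw [← Matrix.mulVec_mulVec]
      refine (hpv' _).1 ?_
      rw [Matrix.mulVec_mulVec, mul_sub, mul_one, hTj, sub_self, Matrix.zero_mulVec]
    have k2 : (1 - p) * e j = 1 - p := by
      have k3 : (1 - p) * (1 - e j) = 0 := by rw [sub_mul, one_mul, k1, sub_self]
      rw [mul_sub, mul_one] at k3
      exact (sub_eq_zero.1 k3).symm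
    have hE : (1 - p) ∈ EC P := Submodule.sub_mem _ EC_one hp
    have h11 : (1 - p) * (1 - p) = 1 - p := by
      rw [sub_mul, mul_sub, mul_sub, hpp, one_mul, mul_one, one_mul, sub_self, sub_zero]
    rcases (e1 j).scal14 (y := e j * (1 - p)) (EC_mul (e1 j).mem hE) (by
        calc e j * (e j * (1 - p)) * e j = (e j * e j) * ((1 - p) * e j) := by simp only [mul_assoc]
          _ = _ := by rw [(e1 j).idem, k2]) (by
        calc e j * (1 - p) * (e j * (1 - p)) = e j * ((1 - p) * e j) * (1 - p) := by simp only [mul_assoc]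
          _ = e j * ((1 - p) * (1 - p)) := by rw [k2, mul_assoc]
          _ = _ := by rw [h11]) with h | h
    · exfalso
      apply hij
      have k4 : T' * p = 0 := by
        apply ext_mulVec14
        intro v
        rw [← Matrix.mulVec_mulVec, Matrix.zero_mulVec]
        refine (hpv' _).2 ?_
        rw [Matrix.mulVec_mulVec, hpp]
      calc T' = T' * (1 - p) := by rw [mul_sub, mul_one, k4, sub_zero]
        _ = T' * (e j * (1 - p)) := by rw [← mul_assoc, hTj]
        _ = 0 := by rw [h, mul_zero]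
    · intro v hv
      have h1 := (hpv' v).1 hv
      rw [← h, ← Matrix.mulVec_mulVec, Matrix.sub_mulVec, Matrix.one_mulVec, h1, sub_self, Matrix.mulVec_zero]
  -- the range
  have hran : ∀ v, ∃ u, T' *ᵥ u = e i *ᵥ v := by
    obtain ⟨p, hp, hpp, hpv⟩ := hst (LinearMap.range (Matrix.toLin' T')) (by
      rintro g hg _ ⟨v, rfl⟩
      obtain ⟨c, hc⟩ := hT g hg
      have hc' := hTc g hg c hc
      refine ⟨c • ((g : Matrix n n ℂ) *ᵥ v), ?_⟩
      rw [Matrix.toLin'_apply, Matrix.toLin'_apply, Matrix.mulVec_smul, Matrix.mulVec_mulVec, Matrix.mulVec_mulVec, hc',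
        Matrix.smul_mulVec])
    have k1 : p * T' = T' := by
      apply ext_mulVec14
      intro v
      rw [← Matrix.mulVec_mulVec]
      exact (hpv _).1 ⟨v, Matrix.toLin'_apply _ _⟩
    have k2 : e i * p = p := by
      apply ext_mulVec14
      intro v
      obtain ⟨u, hu⟩ := (hpv (p *ᵥ v)).2 (by rw [Matrix.mulVec_mulVec, hpp])
      rw [Matrix.toLin'_apply] at hu
      rw [← Matrix.mulVec_mulVec, ← hu, Matrix.mulVec_mulVec, hTi]
    rcases (e1 i).scal14 (y := p * e i) (EC_mul hp (e1 i).mem) (by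
        calc e i * (p * e i) * e i = (e i * p) * (e i * e i) := by simp only [mul_assoc]
          _ = _ := by rw [k2, (e1 i).idem]) (by
        calc p * e i * (p * e i) = p * (e i * p) * e i := by simp only [mul_assoc]
          _ = _ := by rw [k2, hpp]) with h | h
    · exfalso
      apply hij
      calc T' = p * (e i * T') := by rw [hTi, k1]
        _ = 0 := by rw [← mul_assoc, h, zero_mul]
    · intro v
      obtain ⟨u, hu⟩ := (hpv (e i *ᵥ v)).2 (by rw [Matrix.mulVec_mulVec, h])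
      rw [Matrix.toLin'_apply] at hu
      exact ⟨u, hu⟩
  -- coordinates
  obtain ⟨r, W, V, v1, v2⟩ := exists_coord48 (e1 i).idem
  obtain ⟨r', W', V', v1', v2'⟩ := exists_coord48 (e1 j).idem
  have hri : (e i).rank = r := _root_.MH.blk_rank (e1 i) v1 v2
  have hrj : (e j).rank = r' := _root_.MH.blk_rank (e1 j) v1' v2'
  have hWi : e i * W = W := by rw [← v2, Matrix.mul_assoc, v1, Matrix.mul_one]
  have hVi : V * e i = V := by rw [← v2, ← Matrix.mul_assoc, v1, Matrix.one_mul]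
  have hWj : e j * W' = W' := by rw [← v2', Matrix.mul_assoc, v1', Matrix.mul_one]
  have hVj : V' * e j = V' := by rw [← v2', ← Matrix.mul_assoc, v1', Matrix.one_mul]
  have hinj : Function.Injective (Matrix.toLin' (V * T' * W')) := by
    rw [← LinearMap.ker_eq_bot, LinearMap.ker_eq_bot']
    intro u hu
    rw [Matrix.toLin'_apply] at hu
    have h1 : T' *ᵥ (W' *ᵥ u) = 0 := by
      calc T' *ᵥ (W' *ᵥ u) = W *ᵥ ((V * T' * W') *ᵥ u) := by
            rw [Matrix.mulVec_mulVec, Matrix.mulVec_mulVec]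
            congr 1
            calc T' * W' = (e i * T') * W' := by rw [hTi]
              _ = _ := by rw [← v2]; simp only [Matrix.mul_assoc]
        _ = 0 := by rw [hu, Matrix.mulVec_zero]
    have h2 := hker _ h1
    rw [Matrix.mulVec_mulVec, hWj] at h2
    calc u = (V' * W') *ᵥ u := by rw [v1', Matrix.one_mulVec]
      _ = V' *ᵥ (W' *ᵥ u) := by rw [Matrix.mulVec_mulVec]
      _ = 0 := by rw [h2, Matrix.mulVec_zero]
  have hsurj : Function.Surjective (Matrix.toLin' (V * T' * W')) := by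
    intro u
    obtain ⟨v, hv⟩ := hran (W *ᵥ u)
    rw [Matrix.mulVec_mulVec, hWi] at hv
    refine ⟨V' *ᵥ v, ?_⟩
    rw [Matrix.toLin'_apply]
    calc (V * T' * W') *ᵥ (V' *ᵥ v) = V *ᵥ (T' *ᵥ v) := by
          rw [Matrix.mulVec_mulVec, Matrix.mulVec_mulVec]
          congr 1
          calc V * T' * W' * V' = V * (T' * e j) := by rw [← v2']; simp only [Matrix.mul_assoc]
            _ = _ := by rw [hTj]
      _ = (V * W) *ᵥ u := by rw [hv, Matrix.mulVec_mulVec]
      _ = u := by rw [v1, Matrix.one_mulVec]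
  have hrr : r = r' := by
    have h1 := (LinearEquiv.ofBijective _ ⟨hinj, hsurj⟩).finrank_eq
    simpa using h1.symm
  subst hrr
  have hdetT : (V * T' * W').det ≠ 0 := by
    have h1 : IsUnit (Matrix.toLin' (V * T' * W')) := by
      rw [Module.End.isUnit_iff]
      exact ⟨hinj, hsurj⟩
    rw [Matrix.isUnit_toLin'_iff, Matrix.isUnit_iff_isUnit_det] at h1
    exact h1.ne_zero
  refine ⟨r, ?_, ?_⟩
  · rw [← hri, Nat.one_le_iff_ne_zero]
    intro h0
    apply (e1 i).ne
    rw [Matrix.rank, Submodule.finrank_eq_zero, LinearMap.range_eq_bot] at h0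
    exact (LinearEquiv.map_eq_zero_iff Matrix.toLin').1 h0
  · intro g hg c hc
    have hc' := hTc g hg c hc
    obtain ⟨z, hz⟩ := hsim g hg
    have hz0 : z ≠ 0 := by
      rintro rfl
      rw [zero_pow two_ne_zero, zero_smul] at hz
      have h3 := congrArg Matrix.det hz
      rw [Matrix.det_mul, Matrix.det_mul, Matrix.det_transpose] at h3
      have hne : Nonempty n := by
        by_contra hn
        rw [not_nonempty_iff] at hn
        apply hT0
        ext a
        exact hn.elim a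
      rw [Matrix.det_zero] at h3
      have h4 : (g : Matrix n n ℂ).det ≠ 0 := by
        intro h0
        have h5 := congrArg Matrix.det (hgi g)
        rw [Matrix.det_mul, h0, zero_mul, Matrix.det_one] at h5
        exact zero_ne_one h5
      exact mul_ne_zero (mul_ne_zero h4 H.detQ) h4 h3
    have d1 := det_blk14 H hSD (e1 i) (hcomm g hg) hz
    have d2 := det_blk14 H hSD (e1 j) (hcomm g hg) hz
    have w1 : ((g : Matrix n n ℂ) * e i + (1 - e i)).det = (V * (g : Matrix n n ℂ) * W).det := by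
      have h3 : (g : Matrix n n ℂ) * e i + (1 - e i) = 1 + (((g : Matrix n n ℂ) - 1) * W) * V := by
        rw [Matrix.mul_assoc, v2, Matrix.sub_mul, Matrix.one_mul]
        abel
      have h4 : 1 + V * (((g : Matrix n n ℂ) - 1) * W) = V * (g : Matrix n n ℂ) * W := by
        rw [Matrix.sub_mul, Matrix.one_mul, Matrix.mul_sub, v1, ← Matrix.mul_assoc]
        abel
      rw [h3, Matrix.det_one_add_mul_comm, h4]
    have w2 : ((g : Matrix n n ℂ) * e j + (1 - e j)).det = (V' * (g : Matrix n n ℂ) * W').det := by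
      have h3 : (g : Matrix n n ℂ) * e j + (1 - e j) = 1 + (((g : Matrix n n ℂ) - 1) * W') * V' := by
        rw [Matrix.mul_assoc, v2', Matrix.sub_mul, Matrix.one_mul]
        abel
      have h4 : 1 + V' * (((g : Matrix n n ℂ) - 1) * W') = V' * (g : Matrix n n ℂ) * W' := by
        rw [Matrix.sub_mul, Matrix.one_mul, Matrix.mul_sub, v1', ← Matrix.mul_assoc]
        abel
      rw [h3, Matrix.det_one_add_mul_comm, h4]
    rw [w1, hri] at d1
    rw [w2, hrj] at d2
    have w3 : (V * (g : Matrix n n ℂ) * W) * (V * T' * W') = c • ((V * T' * W') * (V' * (g : Matrix n n ℂ) * W')) := by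
      calc (V * (g : Matrix n n ℂ) * W) * (V * T' * W') = V * ((g : Matrix n n ℂ) * ((W * V) * T')) * W' := by
            simp only [Matrix.mul_assoc]
        _ = c • (V * (T' * (g : Matrix n n ℂ)) * W') := by
            rw [v2, hTi, hc', Matrix.mul_smul, Matrix.smul_mul]
        _ = c • (V * (T' * ((g : Matrix n n ℂ) * e j)) * W') := by
            rw [Matrix.mul_assoc V, Matrix.mul_assoc V, Matrix.mul_assoc T', Matrix.mul_assoc T',
              Matrix.mul_assoc (g : Matrix n n ℂ), hWj]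
        _ = _ := by
            rw [hcomm g hg _ (e1 j).mem, ← v2']
            simp only [Matrix.mul_assoc]
    have w4 := congrArg Matrix.det w3
    rw [Matrix.det_mul, Matrix.det_smul, Matrix.det_mul, Fintype.card_fin] at w4
    have w5 : (V * (g : Matrix n n ℂ) * W).det = c ^ r * (V' * (g : Matrix n n ℂ) * W').det := by
      apply mul_right_cancel₀ hdetT
      rw [w4]
      ring
    rw [w5, mul_pow, d2] at d1
    have h5 : (z ^ 2) ^ r ≠ 0 := pow_ne_zero _ (pow_ne_zero _ hz0)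
    have h6 : (c ^ r) ^ 2 = 1 := by
      apply mul_right_cancel₀ h5
      rw [d1, one_mul]
    rw [mul_comm 2 r, pow_mul]
    exact h6

/-- **The data of the block theorems**, in the self-dual case. -/
theorem isTateN14 (H : IsHW w Q S P) (hSD : SelfDual Q P) {Γ : Subgroup (GL n ℂ)}
    (hsim : ∀ g ∈ Γ, ∃ z : ℂ, (g : Matrix n n ℂ)ᵀ * toC Q * (g : Matrix n n ℂ) = z ^ 2 • toC Q)
    (hcomm : ∀ g ∈ Γ, ∀ x ∈ EC P, (g : Matrix n n ℂ) * x = x * (g : Matrix n n ℂ))
    (hcent : ∀ Γ' : Subgroup (GL n ℂ), Γ' ≤ Γ → Γ'.relIndex Γ ≠ 0 → ∀ T : Matrix n n ℂ,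
      (∀ g ∈ Γ', (g : Matrix n n ℂ) * T = T * (g : Matrix n n ℂ)) → T ∈ EC P)
    (hspan : ∀ Γ' : Subgroup (GL n ℂ), Γ' ≤ Γ → Γ'.relIndex Γ ≠ 0 → ∀ X : Matrix n n ℂ,
      (∀ x ∈ EC P, X * x = x * X) → X ∈ spG Γ') : IsTateN S P Γ where
  ss := by
    intro Γ' a1 a2 W hW
    obtain ⟨p, hp, hpp, hpv⟩ := exists_idem14 H (W := W) fun X hX => spG_stb hW (hspan Γ' a1 a2 X hX)
    refine ⟨LinearMap.ker (Matrix.toLin' p), ?_, ?_⟩
    · intro g hg v hv
      rw [LinearMap.mem_ker, Matrix.toLin'_apply] at hv ⊢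
      rw [Matrix.mulVec_mulVec, ← hcomm g (a1 hg) p hp, ← Matrix.mulVec_mulVec, hv, Matrix.mulVec_zero]
    · refine ⟨?_, ?_⟩
      · rw [Submodule.disjoint_def]
        intro v h1 h2
        rw [LinearMap.mem_ker, Matrix.toLin'_apply] at h2
        rw [← (hpv v).1 h1, h2]
      · rw [codisjoint_iff, Submodule.eq_top_iff']
        intro v
        rw [Submodule.mem_sup]
        refine ⟨p *ᵥ v, (hpv _).2 (by rw [Matrix.mulVec_mulVec, hpp]), v - p *ᵥ v, ?_, by abel⟩
        rw [LinearMap.mem_ker, Matrix.toLin'_apply, Matrix.mulVec_sub, Matrix.mulVec_mulVec, hpp, sub_self]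
  semi := by
    intro Γ' a1 a2 T hT
    classical
    by_cases hT0 : T = 0
    · rw [hT0]
      exact H.SI_EC (EC P).zero_mem
    refine H.SI_EC ?_
    obtain ⟨r, hr, hord⟩ := semi_ord14 H hSD (fun g hg => hsim g (a1 hg)) (fun g hg => hcomm g (a1 hg))
      (hspan Γ' a1 a2) hT0 hT
    choose c hc using fun g : Γ' => hT g g.2
    have hfin : Set.Finite {x : ℂ | x ^ (2 * r) = 1} := by
      refine Set.Finite.subset (Finset.finite_toSet (Polynomial.nthRoots (2 * r) (1 : ℂ)).toFinset) fun x hx => ?_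
      rw [Finset.mem_coe, Multiset.mem_toFinset, Polynomial.mem_nthRoots (by omega)]
      exact hx
    have : Finite {x : ℂ | x ^ (2 * r) = 1} := hfin
    -- the subgroup that commutes with `T`
    let Δ : Subgroup (GL n ℂ) :=
      { carrier := {g | g ∈ Γ' ∧ (g : Matrix n n ℂ) * T = T * (g : Matrix n n ℂ)}
        mul_mem' := by
          rintro a b ⟨ha, ha'⟩ ⟨hb, hb'⟩
          refine ⟨Γ'.mul_mem ha hb, ?_⟩
          rw [Units.val_mul, mul_assoc, hb', ← mul_assoc, ha', mul_assoc]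
        one_mem' := ⟨Γ'.one_mem, by rw [Units.val_one, one_mul, mul_one]⟩
        inv_mem' := by
          rintro a ⟨ha, ha'⟩
          refine ⟨Γ'.inv_mem ha, ?_⟩
          have h1 : ((a⁻¹ : GL n ℂ) : Matrix n n ℂ) * (a : Matrix n n ℂ) = 1 := by
            rw [← Units.val_mul, inv_mul_cancel, Units.val_one]
          have h2 : (a : Matrix n n ℂ) * ((a⁻¹ : GL n ℂ) : Matrix n n ℂ) = 1 := by
            rw [← Units.val_mul, mul_inv_cancel, Units.val_one]
          calc ((a⁻¹ : GL n ℂ) : Matrix n n ℂ) * T = ((a⁻¹ : GL n ℂ) : Matrix n n ℂ) * (T * (a : Matrix n n ℂ)) *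
                ((a⁻¹ : GL n ℂ) : Matrix n n ℂ) := by rw [mul_assoc, mul_assoc T, h2, mul_one]
            _ = (((a⁻¹ : GL n ℂ) : Matrix n n ℂ) * (a : Matrix n n ℂ)) * T * ((a⁻¹ : GL n ℂ) : Matrix n n ℂ) := by
                rw [← ha']
                simp only [mul_assoc]
            _ = T * ((a⁻¹ : GL n ℂ) : Matrix n n ℂ) := by rw [h1, one_mul] }
    have hΔ : Δ ≤ Γ' := fun g hg => hg.1
    refine hcent Δ (hΔ.trans a1) ?_ T fun g hg => hg.2
    rw [← Subgroup.relIndex_mul_relIndex Δ Γ' Γ hΔ a1]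
    refine mul_ne_zero ?_ a2
    unfold Subgroup.relIndex
    refine index_ne_zero14 _ (fun g : Γ' => (⟨c g, hord g g.2 _ (hc g)⟩ : {x : ℂ | x ^ (2 * r) = 1})) ?_
    intro g h hgh
    have hgh' : c g = c h := congrArg Subtype.val hgh
    rw [Subgroup.mem_subgroupOf]
    refine ⟨(g⁻¹ * h).2, ?_⟩
    have hval : (((g⁻¹ * h : Γ') : GL n ℂ) : Matrix n n ℂ) =
        (((g : GL n ℂ)⁻¹ : GL n ℂ) : Matrix n n ℂ) * ((h : GL n ℂ) : Matrix n n ℂ) := by
      rw [Subgroup.coe_mul, Subgroup.coe_inv, Units.val_mul]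
    have h1 : (((g : GL n ℂ)⁻¹ : GL n ℂ) : Matrix n n ℂ) * ((g : GL n ℂ) : Matrix n n ℂ) = 1 := by
      rw [← Units.val_mul, inv_mul_cancel, Units.val_one]
    have h2 : ((g : GL n ℂ) : Matrix n n ℂ) * (((g : GL n ℂ)⁻¹ : GL n ℂ) : Matrix n n ℂ) = 1 := by
      rw [← Units.val_mul, mul_inv_cancel, Units.val_one]
    have hcg : c g ≠ 0 := by
      intro h0
      have h3 := hord g g.2 _ (hc g)
      rw [h0, zero_pow (by omega)] at h3
      exact zero_ne_one h3
    have h3 : c g • ((((g : GL n ℂ)⁻¹ : GL n ℂ) : Matrix n n ℂ) * T) = T * (((g : GL n ℂ)⁻¹ : GL n ℂ) : Matrix n n ℂ) := by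
      calc c g • ((((g : GL n ℂ)⁻¹ : GL n ℂ) : Matrix n n ℂ) * T)
          = (((g : GL n ℂ)⁻¹ : GL n ℂ) : Matrix n n ℂ) * (c g • (T * ((g : GL n ℂ) : Matrix n n ℂ))) *
            (((g : GL n ℂ)⁻¹ : GL n ℂ) : Matrix n n ℂ) := by
            rw [mul_smul_comm, smul_mul_assoc, mul_assoc, mul_assoc T, h2, mul_one]
        _ = ((((g : GL n ℂ)⁻¹ : GL n ℂ) : Matrix n n ℂ) * ((g : GL n ℂ) : Matrix n n ℂ)) * T *
            (((g : GL n ℂ)⁻¹ : GL n ℂ) : Matrix n n ℂ) := by
            rw [← hc g]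
            simp only [mul_assoc]
        _ = _ := by rw [h1, one_mul]
    rw [hval]
    calc (((g : GL n ℂ)⁻¹ : GL n ℂ) : Matrix n n ℂ) * ((h : GL n ℂ) : Matrix n n ℂ) * T
        = (((g : GL n ℂ)⁻¹ : GL n ℂ) : Matrix n n ℂ) * (c h • (T * ((h : GL n ℂ) : Matrix n n ℂ))) := by
          rw [mul_assoc, hc h]
      _ = (c g • ((((g : GL n ℂ)⁻¹ : GL n ℂ) : Matrix n n ℂ) * T)) * ((h : GL n ℂ) : Matrix n n ℂ) := by
          rw [hgh', mul_smul_comm, smul_mul_assoc, mul_assoc]
      _ = T * ((((g : GL n ℂ)⁻¹ : GL n ℂ) : Matrix n n ℂ) * ((h : GL n ℂ) : Matrix n n ℂ)) := by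
          rw [h3, mul_assoc]

end MH
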