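import Pool.Agent.Helper14.PP.Tys
import Pool.Agent.Helper14.PP.Sem

/-!
Project PF with blocks (MP_b8862a_ag): the main theorem for Hodge structures all of whose blocks are self-dual.
-/

set_option linter.unusedSectionVars false

open Matrix Module GH

namespace MH

variable {n : Type*} [Fintype n] [DecidableEq n]
variable {w : ℤ} {Q : Matrix n n ℚ} {S : Finset ℤ} {P : ℤ → Matrix n n ℂ} {Γ : Subgroup (GL n ℂ)}

/-- The `ℓ`-adic data if all the blocks are self-dual: `Γ` consists of similitudes of `Q` (isometries in weight zero); a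
subgroup of finite index commutes with the endomorphisms of the Hodge structure; and for every automorphism `σ` there is a
Hodge-Tate decomposition with the numbers of the conjugate by `σ` of the Hodge decomposition. -/
structure IsGalSD (w : ℤ) (Q : Matrix n n ℚ) (S : Finset ℤ) (P : ℤ → Matrix n n ℂ) (Γ : Subgroup (GL n ℂ)) : Prop where
  sim : ∀ g ∈ Γ, ∃ z : ℂ, (w = 0 → z = 1) ∧ (g : Matrix n n ℂ)ᵀ * toC Q * (g : Matrix n n ℂ) = z ^ 2 • toC Q
  comm : ∃ Γ' : Subgroup (GL n ℂ), Γ' ≤ Γ ∧ Γ'.relIndex Γ ≠ 0 ∧ ∀ g ∈ Γ', ∀ x ∈ EC P,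
    (g : Matrix n n ℂ) * x = x * (g : Matrix n n ℂ)
  conj : ∀ σ : ℂ ≃+* ℂ, ∃ (S' : Finset ℤ) (R : ℤ → Matrix n n ℂ), IsHTs w Q S P Γ σ S' R

theorem IsGalSD.toN (H : IsHW w Q S P) (hSD : SelfDual Q P) (G : IsGalSD w Q S P Γ) : IsGalN w Q S P Γ where
  sim := fun g hg => by
    obtain ⟨z, _, h⟩ := G.sim g hg
    exact ⟨_, h⟩
  semi' := by
    obtain ⟨Γ', a1, a2, a3⟩ := G.comm
    obtain ⟨B, Bi, Qi, h1, h2, _, _, hM⟩ := H.exists_basis
    exact ⟨Γ', a1, a2, fun g hg T hT => ⟨1, by rw [one_smul, a3 g hg T (H.SI_self h1 h2 hM hSD hT)]⟩⟩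
  conj := G.conj

theorem tate_of_fi14 {Γ1 Γ : Subgroup (GL n ℂ)} (h1 : Γ1 ≤ Γ) (h2 : Γ1.relIndex Γ ≠ 0) {a b : ℕ}
    {t : (Fin a ⊕ Fin b → n) → ℂ} (ht : IsTateTensor Γ1 a b t) : IsTateTensor Γ a b t := by
  obtain ⟨Γ', a1, a2, a3⟩ := ht
  refine ⟨Γ', a1.trans h1, ?_, a3⟩
  rw [← Subgroup.relIndex_mul_relIndex Γ' Γ1 Γ a1 h1]
  exact mul_ne_zero a2 h2

/-- the data for a subgroup of finite index -/
theorem IsGalN.fi14 (G : IsGalN w Q S P Γ) {Γ1 : Subgroup (GL n ℂ)} (h1 : Γ1 ≤ Γ) (h2 : Γ1.relIndex Γ ≠ 0) :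
    IsGalN w Q S P Γ1 where
  sim := fun g hg => G.sim g (h1 hg)
  semi' := by
    obtain ⟨Γ', a1, a2, a3⟩ := G.semi'
    refine ⟨Γ' ⊓ Γ1, inf_le_right, ?_, fun g hg => a3 g hg.1⟩
    rw [Subgroup.inf_relIndex_right]
    exact fun h4 => a2 (Subgroup.relIndex_eq_zero_of_le_right h1 h4)
  conj := by
    intro σ
    obtain ⟨S', R, hR⟩ := G.conj σ
    exact ⟨S', R, ⟨⟨hR.mul, hR.supp, hR.sum, hR.orth, fun a b t ht => hR.ht a b t (tate_of_fi14 h1 h2 ht)⟩, hR.rank⟩⟩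

/-- the Tate tensors of a group that contains a monodromy group -/
theorem tate_le_mon14 (H : IsHW w Q S P) (hty : ∀ f, IsBlk P f → 2 ≤ f.rank → TyBN Q S P f)
    (G : IsGalN w Q S P Γ) {D : Subgroup (GL n ℚ)} (M : IsMonB Q S P D) (hle : mapC D ≤ Γ) {a b : ℕ}
    {t : (Fin a ⊕ Fin b → n) → ℂ} (ht : IsTateTensor Γ a b t) : MTfix S P a b t := by
  obtain ⟨B, Bi, Qi, h1, h2, -, -, hM⟩ := H.exists_basis
  refine G.tate_le H ht ?_
  intro g hg
  by_cases hall : ∀ e, IsBlk P e → e.rank = 1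
  · have h3 := InD_one43 H hall hg
    have h4 : g = 1 := Units.ext h3
    rw [h4]
    have h5 : slot a b ((1 : GL n ℂ) : Matrix n n ℂ) (((1 : GL n ℂ)⁻¹ : GL n ℂ) : Matrix n n ℂ) = fun _ => 1 := by
      funext k
      rcases k with k | k
      · rfl
      · simp [slot]
    rw [h5, actF_one]
  push Not at hall
  obtain ⟨e0, he0, hr0⟩ := hall
  have hsd := G.semiD hle
  obtain ⟨ι, i1, e, e1, -, e3⟩ := H.exists_blks43
  refine H.InD_fix (fun X hX1 hX2 hX3 => ?_) hg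
  have hX : X ∈ LG (mapC D) := IsMon.contains H (fun Y hY => H.LH_of_com43 h1 h2 hM hty hY.com hY.skew hY.tr)
    (fun e he hr => (hty e he hr).tyB) (M.mon he0 hr0) hsd
    (fun e he hr => nonscalar_of_group (M.big e he (by omega))) ⟨ι, i1, e, e1, e3⟩ ⟨hX1, hX2, hX3⟩
  exact hX a b t (tate_mono hle ht)

/-- the Tate tensors of a semisimple group, all of whose endomorphisms are those of the Hodge structure -/
theorem tate_le_semi14 {F : Type*} [Field F] (ι : F →+* ℂ) (H : IsHW w Q S P) (hSD : SelfDual Q P)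
    {Γ : Subgroup (GL n F)} (G : IsGalSD w Q S P (Γ.map (Matrix.GeneralLinearGroup.map ι))) (hss : SemiS Γ)
    (h11 : ∀ t, IsTateTensor (Γ.map (Matrix.GeneralLinearGroup.map ι)) 1 1 t → MTfix S P 1 1 t)
    (hcr : ∀ e, IsBlk P e → e.rank ≠ 1 → ∃ σ : ℂ ≃+* ℂ, CrW w e.rank (fun p => (e.map σ * P p).rank) ∧
      ∀ d : ℕ, (∀ p, d ∣ (e.map σ * P p).rank) → d = 1)
    {a b : ℕ} {t : (Fin a ⊕ Fin b → n) → ℂ} (ht : IsTateTensor (Γ.map (Matrix.GeneralLinearGroup.map ι)) a b t) :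
    MTfix S P a b t := by
  classical
  obtain ⟨φ, hφ⟩ : ∃ φ : GL n F →* GL n ℂ, φ = Matrix.GeneralLinearGroup.map ι := ⟨_, rfl⟩
  have hφv : ∀ g : GL n F, ((φ g : GL n ℂ) : Matrix n n ℂ) = (g : Matrix n n F).map ι := by
    intro g
    rw [hφ]
    rfl
  rw [← hφ] at G h11 ht
  have hinj : Function.Injective φ := by
    intro x y hxy
    apply Units.ext
    ext i j
    have h2 := congrArg (fun g : GL n ℂ => (g : Matrix n n ℂ) i j) hxy
    simp only [hφv, Matrix.map_apply] at h2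
    exact ι.injective h2
  -- the commutants
  have hcent : ∀ Γ' : Subgroup (GL n ℂ), Γ' ≤ Γ.map φ → Γ'.relIndex (Γ.map φ) ≠ 0 → ∀ T : Matrix n n ℂ,
      (∀ g ∈ Γ', (g : Matrix n n ℂ) * T = T * (g : Matrix n n ℂ)) → T ∈ EC P := by
    intro Γ' a1 a2 T hT
    have h1 : IsTateTensor (Γ.map φ) 1 1 (t11 T) := by
      refine ⟨Γ', a1, a2, fun g hg => ?_⟩
      rw [slot11, hT g hg, mul_assoc, ← Units.val_mul, mul_inv_cancel, Units.val_one, mul_one]
    have h3 := h11 _ h1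
    refine H.cent_MT (Γ' := MT S P) (by rw [Subgroup.relIndex_self]; exact one_ne_zero) ?_
    intro g hg
    have h4 := h3 g hg
    rw [slot11] at h4
    have h5 := t11_inj h4
    have h6 : ((g⁻¹ : GL n ℂ) : Matrix n n ℂ) * (g : Matrix n n ℂ) = 1 := by
      rw [← Units.val_mul, inv_mul_cancel, Units.val_one]
    calc (g : Matrix n n ℂ) * T = (g : Matrix n n ℂ) * T * ((g⁻¹ : GL n ℂ) : Matrix n n ℂ) * (g : Matrix n n ℂ) := by
          rw [mul_assoc _ ((g⁻¹ : GL n ℂ) : Matrix n n ℂ), h6, mul_one]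
      _ = T * (g : Matrix n n ℂ) := by rw [h5]
  obtain ⟨Γ0, b1, b2, b3⟩ := G.comm
  have hT : IsTateN S P Γ0 := by
    refine isTateN14 H hSD (fun g hg => ?_) b3 (fun Γ' a1 a2 => hcent Γ' (a1.trans b1) ?_) ?_
    · obtain ⟨z, _, h⟩ := G.sim g (b1 hg)
      exact ⟨z, h⟩
    · rw [← Subgroup.relIndex_mul_relIndex Γ' Γ0 (Γ.map φ) a1 b1]
      exact mul_ne_zero a2 b2
    · intro Γ' a1 a2 X hX
      have a3 : Γ'.relIndex (Γ.map φ) ≠ 0 := by
        rw [← Subgroup.relIndex_mul_relIndex Γ' Γ0 (Γ.map φ) a1 b1]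
        exact mul_ne_zero a2 b2
      -- the normal core of the preimage
      obtain ⟨Δ, hΔ⟩ : ∃ Δ : Subgroup (GL n F), Δ = Γ'.comap φ := ⟨_, rfl⟩
      have hΔi : Δ.relIndex Γ ≠ 0 := by
        rw [hΔ, Subgroup.relIndex_comap]
        exact a3
      obtain ⟨K, hK⟩ : ∃ K : Subgroup Γ, K = (Δ.subgroupOf Γ).normalCore := ⟨_, rfl⟩
      have hKn : K.Normal := by rw [hK]; exact Subgroup.normalCore_normal _
      have hKle : K ≤ Δ.subgroupOf Γ := by rw [hK]; exact Subgroup.normalCore_le _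
      have : (Δ.subgroupOf Γ).FiniteIndex := ⟨hΔi⟩
      have hKf : K.FiniteIndex := by rw [hK]; exact Subgroup.finiteIndex_normalCore _
      have hN1 : K.map Γ.subtype ≤ Γ := Subgroup.map_subtype_le K
      have hN2 : (K.map Γ.subtype).map φ ≤ Γ' := by
        rintro _ ⟨_, ⟨x, hx, rfl⟩, rfl⟩
        have h1 := hKle hx
        rw [Subgroup.mem_subgroupOf, hΔ, Subgroup.mem_comap] at h1
        exact h1
      have hN3 : (K.map Γ.subtype).relIndex Γ ≠ 0 := by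
        have h3 : (K.map Γ.subtype).subgroupOf Γ = K :=
          Subgroup.comap_map_eq_self_of_injective Γ.subtype_injective K
        unfold Subgroup.relIndex
        rw [h3]
        exact hKf.index_ne_zero
      have hssN : SemiS (K.map Γ.subtype) := by
        refine hss.normal hN1 ?_
        rintro g hg _ ⟨x, hx, rfl⟩
        refine ⟨_, hKn.conj_mem x hx ⟨g, hg⟩, ?_⟩
        rw [map_mul, map_mul, map_inv]
        rfl
      have h4 : X ∈ spG ((K.map Γ.subtype).map (Matrix.GeneralLinearGroup.map ι)) := by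
        refine mem_spG_map hssN fun L hL => hX _ ?_
        refine hcent ((K.map Γ.subtype).map φ) (Subgroup.map_mono hN1) ?_ _ ?_
        · rw [Subgroup.relIndex_map_map_of_injective _ _ hinj]
          exact hN3
        · rintro _ ⟨g, hg, rfl⟩
          rw [hφv, ← Matrix.map_mul, ← Matrix.map_mul, hL g hg]
      rw [← hφ] at h4
      exact Submodule.span_mono (fun x hx => by
        obtain ⟨g, hg, rfl⟩ := hx
        exact ⟨g, hN2 hg, rfl⟩) h4
  have G0 := (G.toN H hSD).fi14 b1 b2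
  have U := G0.toU H hT
  have ht0 := tate_mono b1 ht
  refine G0.tate_le H ht0 fun g hg => U.tate_fix H ?_ ht0 hg
  intro e he r W V hVW hWV hr
  have hre : e.rank = r := _root_.MH.blk_rank he hVW hWV
  obtain ⟨σ, hN, hg⟩ := hcr e he (by omega)
  obtain ⟨S', R, hR⟩ := G0.conj σ.symm
  have hnum : (fun p => (e * R p).rank) = fun p => (e.map σ * P p).rank := by
    funext p
    rw [hR.rank e he p, H.rank_symm43 he]
  refine U.full_crW H he hVW hWV hr hR.toIsHTw (fun d hd => hg d fun p => ?_) (hSD e he) ?_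
  · have h1 : (e * R p).rank = (e.map σ * P p).rank := congrFun hnum p
    rw [← h1]
    exact hd p
  · rw [hnum, ← hre]
    exact hN

/-- **The main theorem**: Hodge structures all of whose blocks are self-dual and of full type. -/
theorem pp_main {F : Type*} [Field F] (ι : F →+* ℂ) (H : IsHW w Q S P) (hSD : SelfDual Q P)
    (hty : ∀ f, IsBlk P f → 2 ≤ f.rank → TyBN Q S P f) :
    (∀ g : GL n ℂ, g ∈ MT S P ↔ InGw w Q P (g : Matrix n n ℂ)) ∧
    ∀ Γ : Subgroup (GL n F), IsGalSD w Q S P (Γ.map (Matrix.GeneralLinearGroup.map ι)) →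
      ((∃ D : Subgroup (GL n ℚ), IsMonB Q S P D ∧ mapC D ≤ Γ.map (Matrix.GeneralLinearGroup.map ι)) ∨
        ((∀ e, IsBlk P e → e.rank ≠ 1 → ∃ σ : ℂ ≃+* ℂ, CrW w e.rank (fun p => (e.map σ * P p).rank) ∧
          ∀ d : ℕ, (∀ p, d ∣ (e.map σ * P p).rank) → d = 1) ∧ SemiS Γ ∧
          ∀ t, IsTateTensor (Γ.map (Matrix.GeneralLinearGroup.map ι)) 1 1 t → MTfix S P 1 1 t)) →
      ∀ (a b : ℕ) (t : (Fin a ⊕ Fin b → n) → ℂ),
        IsTateTensor (Γ.map (Matrix.GeneralLinearGroup.map ι)) a b t ↔ MTfix S P a b t := by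
  refine ⟨H.MT_iff_self14 hty hSD, fun Γ G hAB a b t => ⟨fun ht => ?_, fun ht =>
    tate_ge14 H hSD (fun g hg => (H.MT_iff_self14 hty hSD g).2 hg) G.sim G.comm ht⟩⟩
  rcases hAB with ⟨D, M, hle⟩ | ⟨hcr, hss, h11⟩
  · exact tate_le_mon14 H hty (G.toN H hSD) M hle ht
  · exact tate_le_semi14 ι H hSD G hss h11 hcr ht

end MH
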