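import Pool.Agent.Helper14.PP.Blk
import Pool.Agent.Helper14.PP.DetB
import Pool.Agent.Helper98.PF.HodgeW

/-!
Project PF with blocks (MP_b8862a_ag): the type of the blocks, Hodge side.
-/

set_option linter.unusedSectionVars false

open Matrix Module GH

namespace MH

variable {n : Type*} [Fintype n] [DecidableEq n]
variable {w : ℤ} {Q : Matrix n n ℚ} {S : Finset ℤ} {P : ℤ → Matrix n n ℂ}

/-- only scalar endomorphisms: the only block is the identity -/
theorem blk_one14 (hEnd : ∀ A : Matrix n n ℚ, (∀ p, toC A * P p = P p * toC A) → ∃ c : ℚ, A = c • (1 : Matrix n n ℚ))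
    {e : Matrix n n ℂ} (he : IsBlk P e) : e = 1 := by
  obtain ⟨c, hc⟩ := EC_scalar98 hEnd he.mem
  have h1 := he.idem
  rw [hc, smul_mul_smul_comm, mul_one] at h1
  have h2 : (c * c - c) • (1 : Matrix n n ℂ) = 0 := by rw [sub_smul, h1, sub_self]
  have hne : (1 : Matrix n n ℂ) ≠ 0 := by
    intro h0
    apply he.ne
    rw [hc, h0, smul_zero]
  have h3 := (smul_eq_zero.1 h2).resolve_right hne
  have hc0 : c ≠ 0 := by
    rintro rfl
    apply he.ne
    rw [hc, zero_smul]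
  have h4 : c = 1 := by
    have h5 : c * (c - 1) = 0 := by linear_combination h3
    exact sub_eq_zero.1 ((mul_eq_zero.1 h5).resolve_left hc0)
  rw [hc, h4, one_smul]

/-- a polarised Hodge structure of rank at least two with only scalar endomorphisms is not of type `(m, m)` -/
private theorem rank_ne14 (H : IsHW w Q S P)
    (hEnd : ∀ A : Matrix n n ℚ, (∀ p, toC A * P p = P p * toC A) → ∃ c : ℚ, A = c • (1 : Matrix n n ℚ))
    (h2 : 2 ≤ Fintype.card n) (q : ℤ) : (P q).rank ≠ Fintype.card n := by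
  intro hr
  have h1 : P q = 1 := by
    have hPP : P q * P q = P q := by rw [H.mul, if_pos rfl]
    have h3 : (1 - P q) * (1 - P q) = 1 - P q := by
      rw [sub_mul, mul_sub, mul_sub, hPP, one_mul, mul_one, one_mul, sub_self, sub_zero]
    have h4 : (1 - P q).trace = 0 := by
      rw [Matrix.trace_sub, Matrix.trace_one, trace_eq_rank hPP, hr, sub_self]
    rw [trace_eq_rank h3] at h4
    have h5 : (1 - P q).rank = 0 := by exact_mod_cast h4
    rw [Matrix.rank, Submodule.finrank_eq_zero, LinearMap.range_eq_bot] at h5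
    have h6 : 1 - P q = 0 := (LinearEquiv.map_eq_zero_iff Matrix.toLin').1 h5
    exact (sub_eq_zero.1 h6).symm
  have hall : ∀ A : Matrix n n ℚ, ∃ c : ℚ, A = c • (1 : Matrix n n ℚ) := by
    intro A
    refine hEnd A fun p => ?_
    by_cases hp : p = q
    · rw [hp, h1, mul_one, one_mul]
    · have h3 : P p = 0 := by
        have h4 := H.mul p q
        rw [if_neg hp, h1, mul_one] at h4
        exact h4
      rw [h3, mul_zero, zero_mul]
  obtain ⟨i, j, hij⟩ : ∃ i j : n, i ≠ j := by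
    have h3 : 1 < Fintype.card n := h2
    rw [Fintype.one_lt_card_iff] at h3
    exact h3
  obtain ⟨c, hc⟩ := hall (Matrix.single i i 1)
  have e1 : (1 : ℚ) = c := by
    have h3 := congrFun (congrFun hc i) i
    simpa [Matrix.single] using h3
  have e2 : (0 : ℚ) = c := by
    have h3 := congrFun (congrFun hc j) j
    simpa [Matrix.single, hij] using h3
  rw [← e1] at e2
  exact one_ne_zero e2.symm

/-- the core statement for the Hodge numbers -/
theorem coreW_prime14 (H : IsHW w Q S P)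
    (hEnd : ∀ A : Matrix n n ℚ, (∀ p, toC A * P p = P p * toC A) → ∃ c : ℚ, A = c • (1 : Matrix n n ℚ))
    (h2 : ∃ p, 2 ≤ (P p).rank) {q : ℕ} (hq : q.Prime) (hd : q ∣ Fintype.card n) (h25 : 25 * Fintype.card n ≤ q ^ 2) :
    25 ≤ Fintype.card n ∧ CoreW n w (fun p => (P p).rank) := by
  obtain ⟨p, hp⟩ := h2
  have h0 : 2 ≤ Fintype.card n := le_trans hp (Matrix.rank_le_card_height (P p))
  have hqn : q ≤ Fintype.card n := Nat.le_of_dvd (by omega) hd
  have h1 : 25 ≤ q := by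
    have h3 : 25 * q ≤ q * q := by
      calc 25 * q ≤ 25 * Fintype.card n := Nat.mul_le_mul_left _ hqn
        _ ≤ q ^ 2 := h25
        _ = q * q := sq q
    exact Nat.le_of_mul_le_mul_right h3 hq.pos
  refine ⟨by omega, coreW_of h0 ⟨p, hp⟩ ?_ hq hd h25 fun p _ => rank_ne14 H hEnd h0 p⟩
  intro ω hsymm hnd L hL hirr hsk
  exact PF.C.core ω hsymm hnd L hirr hsk hq (by rw [Module.finrank_fintype_fun_eq_card]; exact hd)
    (by rw [Module.finrank_fintype_fun_eq_card]; exact h25)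

theorem SelfDual.self {e : Matrix n n ℂ} (h : SelfDual Q P) (he : IsBlk P e) : SelfB Q P e := h e he

namespace IsHW

variable (H : IsHW w Q S P)
include H

/-- a block with a conjugate that satisfies the condition, without common divisor -/
theorem tyBN_crW (hSD : SelfDual Q P) {e : Matrix n n ℂ} (he : IsBlk P e) (hr2 : 2 ≤ e.rank) {σ : ℂ ≃+* ℂ}
    (hg : ∀ d : ℕ, (∀ p, d ∣ (e.map σ * P p).rank) → d = 1)
    (hN : CrW w e.rank (fun p => (e.map σ * P p).rank)) : TyBN Q S P e := by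
  have hf := he.aut σ
  obtain ⟨r, W, V, hVW, hWV⟩ := exists_coord48 hf.idem
  have hrr : (e.map σ).rank = r := _root_.MH.blk_rank hf hVW hWV
  have hrk := rank_aut σ he.idem
  have hr : 2 ≤ r := by
    rw [← hrr, hrk]
    exact hr2
  have h1 := IsGalU.full_crW H H.isGalU_MT hf hVW hWV hr H.isHTw_id hg (hSD.self hf)
    (by rw [← hrr, hrk]; exact hN)
  rw [H.cpS_LG_MT hVW] at h1
  have h2 : TyBN Q S P (e.map σ) := ⟨r, W, V, hVW, hWV, h1⟩
  have h3 := h2.aut σ.symm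
  rwa [map_symmσ'] at h3

/-- only scalar endomorphisms -/
theorem tyBN_one (hEnd : ∀ A : Matrix n n ℚ, (∀ p, toC A * P p = P p * toC A) → ∃ c : ℚ, A = c • (1 : Matrix n n ℚ))
    (hkill : ∀ X : Matrix n n ℂ, Xᵀ * toC Q + toC Q * X = 0 → X ∈ LH Q S P) (hn : 9 ≤ Fintype.card n)
    {e : Matrix n n ℂ} (he : IsBlk P e) : TyBN Q S P e := by
  obtain rfl := blk_one14 hEnd he
  obtain ⟨B, Bi, Qi, _, _, q1, q2, _⟩ := H.exists_basis
  obtain ⟨r, W, V, hVW, hWV⟩ := exists_coord48 he.idem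
  have hrr : (1 : Matrix n n ℂ).rank = r := _root_.MH.blk_rank he hVW hWV
  rw [Matrix.rank_one] at hrr
  have hVt : Vᵀ * Wᵀ = 1 := by rw [← Matrix.transpose_mul, hWV, Matrix.transpose_one]
  have hWt : Wᵀ * Vᵀ = 1 := by rw [← Matrix.transpose_mul, hVW, Matrix.transpose_one]
  have f1 : (Wᵀ * toC Q * W) * (V * Qi * Vᵀ) = 1 := by
    calc (Wᵀ * toC Q * W) * (V * Qi * Vᵀ) = Wᵀ * toC Q * (W * V) * Qi * Vᵀ := by simp only [Matrix.mul_assoc]
      _ = Wᵀ * (toC Q * Qi) * Vᵀ := by rw [hWV, Matrix.mul_one]; simp only [Matrix.mul_assoc]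
      _ = 1 := by rw [q1, Matrix.mul_one, hWt]
  have f2 : (V * Qi * Vᵀ) * (Wᵀ * toC Q * W) = 1 := by
    calc (V * Qi * Vᵀ) * (Wᵀ * toC Q * W) = V * Qi * (Vᵀ * Wᵀ) * toC Q * W := by simp only [Matrix.mul_assoc]
      _ = V * (Qi * toC Q) * W := by rw [hVt, Matrix.mul_one]; simp only [Matrix.mul_assoc]
      _ = 1 := by rw [q2, Matrix.mul_one, hVW]
  have hsym : (Wᵀ * toC Q * W)ᵀ = Wᵀ * toC Q * W ∨ (Wᵀ * toC Q * W)ᵀ = -(Wᵀ * toC Q * W) := by
    have e1 : (Wᵀ * toC Q * W)ᵀ = Wᵀ * (toC Q)ᵀ * W := by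
      rw [Matrix.transpose_mul, Matrix.transpose_mul, Matrix.transpose_transpose, Matrix.mul_assoc]
    rcases Int.even_or_odd w with hw | hw
    · left
      rw [e1, H.Q_symm, hw.neg_one_zpow, one_smul]
    · right
      rw [e1, H.Q_symm, hw.neg_one_zpow, neg_one_smul, Matrix.mul_neg, Matrix.neg_mul]
  refine ⟨r, W, V, hVW, hWV, ⟨Or.inr ⟨Wᵀ * toC Q * W, hsym, ⟨⟨_, _, f1, f2⟩, rfl⟩, ?_, ?_⟩, Or.inr ?_⟩⟩
  · intro x hx
    have hX : (W * x * V)ᵀ * toC Q + toC Q * (W * x * V) = 0 := by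
      have e1 : (W * x * V)ᵀ * toC Q + toC Q * (W * x * V) = Vᵀ * (xᵀ * (Wᵀ * toC Q * W) + (Wᵀ * toC Q * W) * x) * V := by
        rw [Matrix.transpose_mul, Matrix.transpose_mul, Matrix.mul_add, Matrix.add_mul]
        congr 1
        · calc Vᵀ * (xᵀ * Wᵀ) * toC Q = Vᵀ * (xᵀ * Wᵀ) * toC Q * (W * V) := by rw [hWV, Matrix.mul_one]
            _ = _ := by simp only [Matrix.mul_assoc]
        · calc toC Q * (W * x * V) = (Vᵀ * Wᵀ) * (toC Q * (W * x * V)) := by rw [hVt, Matrix.one_mul]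
            _ = _ := by simp only [Matrix.mul_assoc]
      rw [e1, hx, Matrix.mul_zero, Matrix.zero_mul]
    refine ⟨W * x * V, le_L1 (hkill _ hX), ?_⟩
    calc x = (V * W) * x * (V * W) := by rw [hVW, Matrix.one_mul, Matrix.mul_one]
      _ = V * (W * x * V) * W := by simp only [Matrix.mul_assoc]
  · rintro _ ⟨X, hX, rfl⟩
    obtain ⟨Y, hY, c, rfl⟩ := mem_L1.1 hX
    refine ⟨2 * c, ?_⟩
    have e0 := hY.1
    have e1 : (V * (Y + c • (1 : Matrix n n ℂ)) * W)ᵀ * (Wᵀ * toC Q * W) =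
        Wᵀ * ((Y + c • (1 : Matrix n n ℂ))ᵀ * toC Q) * W := by
      rw [Matrix.transpose_mul, Matrix.transpose_mul]
      calc Wᵀ * ((Y + c • (1 : Matrix n n ℂ))ᵀ * Vᵀ) * (Wᵀ * toC Q * W)
          = Wᵀ * (Y + c • (1 : Matrix n n ℂ))ᵀ * (Vᵀ * Wᵀ) * toC Q * W := by simp only [Matrix.mul_assoc]
        _ = _ := by rw [hVt, Matrix.mul_one]; simp only [Matrix.mul_assoc]
    have e2 : (Wᵀ * toC Q * W) * (V * (Y + c • (1 : Matrix n n ℂ)) * W) =
        Wᵀ * (toC Q * (Y + c • (1 : Matrix n n ℂ))) * W := by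
      calc (Wᵀ * toC Q * W) * (V * (Y + c • (1 : Matrix n n ℂ)) * W)
          = Wᵀ * toC Q * (W * V) * (Y + c • (1 : Matrix n n ℂ)) * W := by simp only [Matrix.mul_assoc]
        _ = _ := by rw [hWV, Matrix.mul_one]; simp only [Matrix.mul_assoc]
    rw [e1, e2, ← Matrix.add_mul, ← Matrix.mul_add]
    have e3 : (Y + c • (1 : Matrix n n ℂ))ᵀ * toC Q + toC Q * (Y + c • (1 : Matrix n n ℂ)) = (2 * c) • toC Q := by
      rw [Matrix.transpose_add, Matrix.transpose_smul, Matrix.transpose_one, add_mul, mul_add, smul_mul_assoc, one_mul,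
        mul_smul_comm, mul_one]
      calc Yᵀ * toC Q + c • toC Q + (toC Q * Y + c • toC Q) = (Yᵀ * toC Q + toC Q * Y) + (2 * c) • toC Q := by module
        _ = (2 * c) • toC Q := by rw [e0, zero_add]
    rw [e3, Matrix.mul_smul, Matrix.smul_mul]
  · rw [Fintype.card_fin, ← hrr]
    omega

/-- **the blocks are of full type** -/
theorem tyBN_prime (hSD : SelfDual Q P)
    (hdom : ∀ e, IsBlk P e → e.rank ≠ 1 → ∃ σ : ℂ ≃+* ℂ, PrN w e.rank (fun p => (e.map σ * P p).rank) ∧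
      ((∀ d : ℕ, (∀ p, d ∣ (e.map σ * P p).rank) → d = 1) ∨
        ∀ A : Matrix n n ℚ, (∀ p, toC A * P p = P p * toC A) → ∃ c : ℚ, A = c • (1 : Matrix n n ℚ)))
    {e : Matrix n n ℂ} (he : IsBlk P e) (hr2 : 2 ≤ e.rank) : TyBN Q S P e := by
  obtain ⟨σ, hN, hg | hEnd⟩ := hdom e he (by omega)
  · exact H.tyBN_crW hSD he hr2 hg (hN.crW hr2)
  · obtain rfl := blk_one14 hEnd he
    have e1 : (1 : Matrix n n ℂ).map σ = 1 := Matrix.map_one _ (map_zero _) (map_one _)
    rw [Matrix.rank_one] at hN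
    simp only [e1, one_mul] at hN
    obtain ⟨hI, h2, q, hq, hd, h25⟩ := hN
    obtain ⟨hn, hcore⟩ := coreW_prime14 H hEnd h2 hq hd h25
    have hnum : ∀ d k : ℕ, 2 ≤ d → 2 ≤ k → Fintype.card n = d ^ k → (∀ p, d ^ (k - 1) ∣ (P p).rank) → False :=
      fun d k hd2 hk hc _ => num_prime98 hq hd (by omega) hk hc hd2
    exact H.tyBN_one hEnd (fun X hX => kills_coreW H hEnd hI hcore hnum hX) (by omega) he

end IsHW

end MH
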